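import Pool.Agent.Helper12_XQ.Stmt

/-! Squad XQ, module U_LCA: the leading coefficients of the sums of the germs of type A. -/

set_option autoImplicit false

namespace Pool.Agent.XQ.U.H54

open MeasureTheory Filter Topology Real Set Pool.Agent.AEU Pool.Agent.AEU.H12 Pool.Agent.XQ
  Pool.Agent.XQ.U

lemma cos_ne_one_of_mem {x : ℝ} (hx : x ∈ Ioo (1 : ℝ) 2) : cos (x * π) ≠ 1 := by
  intro h
  have hp := pi_pos
  have h2 : cos (x * π - 2 * π) = 1 := by rw [cos_sub_two_pi, h]
  rw [Real.cos_eq_one_iff_of_lt_of_lt] at h2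
  · nlinarith [hx.2]
  · nlinarith [hx.1]
  · nlinarith [hx.2]

lemma par_mem {t : ℝ} (h0 : 0 < t) (h1 : t < π / 2) : π / (π - t) ∈ Ioo (1 : ℝ) 2 := by
  have hp := pi_pos
  have h2 : 0 < π - t := by linarith
  constructor
  · rw [lt_div_iff₀ h2]; linarith
  · rw [div_lt_iff₀ h2]; linarith

lemma lead_germA {L : ℝ} (hL : 0 < L) {p : ℝ × ℝ} (hp : OkA p) :
    Lead (fun κ => Pool.Agent.AEU.germA (L / 2) p.1 p.2 κ) L 3
      ((1 / π ^ 2 * JJ 0 * 8) / L ^ 3 * (FA (bb p).1 * FA (bb p).2)) := by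
  obtain ⟨h1, h2, h3, h4⟩ := hp
  have m1 := par_mem h1 h2
  have m2 := par_mem h3 h4
  have h := (lead_TA (l := L / 2) (by linarith) (by linarith [m1.1]) (by linarith [m2.1])
    (cos_ne_one_of_mem m1) (cos_ne_one_of_mem m2)).const_mul (1 / π ^ 2)
  have e1 : 2 * (L / 2) = L := by ring
  have e2 : (L / 2) ^ (-(3 : ℝ)) = 8 / L ^ 3 := by
    rw [Real.rpow_neg (by positivity)]
    have : (L / 2) ^ (3 : ℝ) = (L / 2) ^ (3 : ℕ) := by
      rw [← Real.rpow_natCast]; norm_num
    rw [this]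
    field_simp
    norm_num
  rw [e1, e2] at h
  have e3 : (1 / π ^ 2 * JJ 0 * 8) / L ^ 3 * (FA (bb p).1 * FA (bb p).2)
      = 1 / π ^ 2 * (FA (π / (π - p.1)) * FA (π / (π - p.2)) * JJ 0 * (8 / L ^ 3)) := by
    unfold bb
    ring
  rw [e3]
  exact h

lemma lead_zero (L p : ℝ) : Lead (fun _ => 0) L p 0 := by
  unfold Lead
  simp

lemma Lead_add {T T' : ℝ → ℝ} {L p c c' : ℝ} (h : Lead T L p c) (h' : Lead T' L p c') :
    Lead (fun κ => T κ + T' κ) L p (c + c') := by
  unfold Lead at h h' ⊢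
  refine (h.add h').congr ?_
  intro κ
  ring

theorem lca : LcaStmt := by
  refine ⟨1 / π ^ 2 * JJ 0 * 8, ?_, ?_⟩
  · have := JJ_pos 0
    have := pi_pos
    positivity
  · intro L l hL hl
    induction l with
    | nil =>
      have := lead_zero L 3
      unfold SumA
      simpa using this
    | cons a l ih =>
      have h1 := lead_germA hL (hl a (by simp))
      have h2 := ih (fun p hp => hl p (by simp [hp]))
      have h3 := Lead_add h1 h2
      have e1 : (fun κ => Pool.Agent.AEU.germA (L / 2) a.1 a.2 κ + SumA L l κ) = SumA L (a :: l) := by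
        funext κ
        unfold SumA
        simp
      rw [e1] at h3
      have e2 : 1 / π ^ 2 * JJ 0 * 8 / L ^ 3 * ((a :: l).map fun p => FA (bb p).1 * FA (bb p).2).sum
          = 1 / π ^ 2 * JJ 0 * 8 / L ^ 3 * (FA (bb a).1 * FA (bb a).2)
            + 1 / π ^ 2 * JJ 0 * 8 / L ^ 3 * (l.map fun p => FA (bb p).1 * FA (bb p).2).sum := by
        rw [List.map_cons, List.sum_cons]
        ring
      rw [e2]
      exact h3

end Pool.Agent.XQ.U.H54
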