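import Pool.Agent.Helper12_XQ.Stmt

/-! Squad XQ, module U_DBD: the density of type A is measurable, bounded on the physical side and
symmetric. -/

set_option autoImplicit false

namespace Pool.Agent.XQ.U.H54

open MeasureTheory Filter Topology Real Set Pool.Agent.AEU Pool.Agent.AEU.H12 Pool.Agent.XQ
  Pool.Agent.XQ.U

lemma measurable_FR (b : ℝ) : Measurable (FR b) := by
  unfold FR
  have h1 := measurable_KKf b
  have h2 : Measurable (fun ζ : ℝ => arcsin (√ζ)) := Real.continuous_arcsin.measurable.comp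
    Real.continuous_sqrt.measurable
  have h3 : Measurable (fun ζ : ℝ => KKf b (2 * arsinh (√(-ζ)))) := by
    refine h1.comp ?_
    have : Measurable (fun ζ : ℝ => arsinh (√(-ζ))) :=
      Real.continuous_arsinh.measurable.comp (Real.continuous_sqrt.measurable.comp measurable_neg)
    exact this.const_mul 2
  refine Measurable.ite (measurableSet_le measurable_const measurable_id) ?_ h3
  refine Measurable.div measurable_const ?_
  exact (Real.measurable_cos.comp (h2.const_mul (2 * b))).sub measurable_const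

lemma measurable_dF (b : ℝ) : Measurable (fun p : ℝ × ℝ => dF b p.1 p.2) := by
  unfold dF YY
  refine Measurable.sub ?_ ?_
  · exact (measurable_FR b).comp (by fun_prop)
  · refine (measurable_FR b).comp ?_
    refine Measurable.div (by fun_prop) (by fun_prop)

lemma measurable_DR (b b' : ℝ) : Measurable (DR b b') := by
  unfold DR
  refine Measurable.const_mul ?_ 2
  have h1 := measurable_dF b
  have h2 := measurable_dF b'
  have h : StronglyMeasurable (fun p : ℝ × ℝ =>
      dF b p.1 p.2 * dF b' p.1 p.2 / √(1 - p.1 * sin p.2 ^ 2)) := by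
    refine Measurable.stronglyMeasurable ?_
    refine Measurable.div (h1.mul h2) ?_
    exact Real.continuous_sqrt.measurable.comp (by fun_prop)
  exact (h.integral_prod_right' (ν := volume.restrict (Ioo 0 (π / 2)))).measurable

lemma FR_bdd {b : ℝ} (hb : cos (b * π) ≠ 1) : ∃ M, 0 ≤ M ∧ ∀ ζ : ℝ, ζ ≤ 0 → |FR b ζ| ≤ M := by
  obtain ⟨M, hM⟩ := KKf_bdd hb
  refine ⟨M, (abs_nonneg _).trans (hM 0), ?_⟩
  intro ζ hζ
  unfold FR
  split_ifs with h
  · have e : ζ = 0 := le_antisymm hζ h
    have h0 := hM 0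
    unfold KKf at h0
    rw [e]
    simpa using h0
  · exact hM _

lemma cos_ne_one_of_mem' {x : ℝ} (hx : x ∈ Ioo (1 : ℝ) 2) : cos (x * π) ≠ 1 := by
  intro h
  have hp := pi_pos
  have h2 : cos (x * π - 2 * π) = 1 := by rw [cos_sub_two_pi, h]
  rw [Real.cos_eq_one_iff_of_lt_of_lt] at h2
  · nlinarith [hx.2]
  · nlinarith [hx.1]
  · nlinarith [hx.2]

lemma dF_bdd {b : ℝ} (hb : cos (b * π) ≠ 1) :
    ∃ M, 0 ≤ M ∧ ∀ z t : ℝ, z ≤ 0 → |dF b z t| ≤ M := by
  obtain ⟨M, hM0, hM⟩ := FR_bdd hb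
  refine ⟨M + M, by linarith, ?_⟩
  intro z t hz
  unfold dF
  have h1 : z * sin t ^ 2 ≤ 0 := mul_nonpos_of_nonpos_of_nonneg hz (sq_nonneg _)
  have h2 : YY z t ≤ 0 := by
    unfold YY
    refine div_nonpos_of_nonpos_of_nonneg ?_ (by linarith)
    exact mul_nonpos_of_nonpos_of_nonneg hz (sq_nonneg _)
  exact (abs_sub _ _).trans (add_le_add (hM _ h1) (hM _ h2))

theorem dbd : DbdStmt := by
  refine ⟨measurable_DR, ?_, ?_⟩
  · intro b b' z
    unfold DR
    congr 2
    funext t
    rw [mul_comm (dF b z t)]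
  · intro b b' hb hb'
    obtain ⟨M, hM0, hM⟩ := dF_bdd (cos_ne_one_of_mem' hb)
    obtain ⟨M', hM0', hM'⟩ := dF_bdd (cos_ne_one_of_mem' hb')
    refine ⟨2 * (M * M' * volume.real (Ioo 0 (π / 2))), ?_⟩
    intro z hz
    unfold DR
    rw [abs_mul, abs_of_pos (by norm_num : (0 : ℝ) < 2)]
    refine mul_le_mul_of_nonneg_left ?_ (by norm_num)
    rw [← Real.norm_eq_abs]
    refine norm_setIntegral_le_of_norm_le_const (by simp) ?_
    intro t _
    have h1 : z * sin t ^ 2 ≤ 0 := mul_nonpos_of_nonpos_of_nonneg hz (sq_nonneg _)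
    have h2 : 1 ≤ √(1 - z * sin t ^ 2) := Real.one_le_sqrt.mpr (by linarith)
    rw [Real.norm_eq_abs, abs_div, abs_mul, abs_of_pos (by linarith : 0 < √(1 - z * sin t ^ 2))]
    rw [div_le_iff₀ (by linarith)]
    have h3 := hM z t hz
    have h4 := hM' z t hz
    have h5 : |dF b z t| * |dF b' z t| ≤ M * M' := mul_le_mul h3 h4 (abs_nonneg _) hM0
    have h6 : 0 ≤ M * M' := mul_nonneg hM0 hM0'
    nlinarith

end Pool.Agent.XQ.U.H54
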