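import Pool.Agent.Helper54_XQ.Dbd

/-! Squad XQ, module U_SING: behaviour of the density of type A at the singularity. -/

set_option autoImplicit false

namespace Pool.Agent.XQ.U.H54

open MeasureTheory Filter Topology Real Set Pool.Agent.AEU Pool.Agent.AEU.H12 Pool.Agent.XQ
  Pool.Agent.XQ.U

/-! ### The kernel on the segment `[0, zb b)` -/

/-- the kernel on the unphysical side -/
noncomputable def gF (b ζ : ℝ) : ℝ :=
  b / 2 * (-sin (b * π)) / (cos (2 * b * arcsin (√ζ)) - cos (b * π))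

lemma FR_eq {b ζ : ℝ} (h : 0 ≤ ζ) : FR b ζ = gF b ζ := by
  unfold FR gF
  rw [if_pos h]

/-- the angle of the singularity -/
noncomputable def AA (b : ℝ) : ℝ := π / b - π / 2

lemma AA_pos {b : ℝ} (hb : b ∈ Ioo (1 : ℝ) 2) : 0 < AA b := by
  have hp := pi_pos
  have h0 : 0 < b := by linarith [hb.1]
  unfold AA
  have : π / 2 < π / b := by
    rw [div_lt_div_iff₀ (by norm_num) h0]
    nlinarith [hb.2]
  linarith

lemma AA_lt {b : ℝ} (hb : b ∈ Ioo (1 : ℝ) 2) : AA b < π / 2 := by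
  have hp := pi_pos
  have h0 : 0 < b := by linarith [hb.1]
  unfold AA
  have : π / b < π := by
    rw [div_lt_iff₀ h0]
    nlinarith [hb.1]
  linarith

lemma AA_anti {x b : ℝ} (hx : 1 < x) (hxb : x < b) : AA b < AA x := by
  have hp := pi_pos
  unfold AA
  have : π / b < π / x := by
    rw [div_lt_div_iff₀ (by linarith) (by linarith)]
    nlinarith
  linarith

lemma sin_AA (b : ℝ) : sin (AA b) = -cos (π / b) := by
  unfold AA
  rw [Real.sin_sub_pi_div_two]

lemma zb_eq (b : ℝ) : zb b = sin (AA b) ^ 2 := by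
  unfold zb
  rw [sin_AA]
  ring

lemma sin_AA_pos {b : ℝ} (hb : b ∈ Ioo (1 : ℝ) 2) : 0 < sin (AA b) :=
  sin_pos_of_pos_of_lt_pi (AA_pos hb) (by linarith [AA_lt hb, pi_pos])

lemma zb_pos {b : ℝ} (hb : b ∈ Ioo (1 : ℝ) 2) : 0 < zb b := by
  rw [zb_eq]
  exact pow_pos (sin_AA_pos hb) 2

lemma zb_lt_one {b : ℝ} (hb : b ∈ Ioo (1 : ℝ) 2) : zb b < 1 := by
  rw [zb_eq]
  have h1 : 0 < cos (AA b) := cos_pos_of_mem_Ioo ⟨by linarith [AA_pos hb, pi_pos], AA_lt hb⟩
  nlinarith only [h1, sin_sq_add_cos_sq (AA b)]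

lemma zb_anti {x b : ℝ} (hx : x ∈ Ioo (1 : ℝ) b) (hb : b ∈ Ioo (1 : ℝ) 2) : zb b < zb x := by
  have hx2 : x ∈ Ioo (1 : ℝ) 2 := ⟨hx.1, hx.2.trans hb.2⟩
  rw [zb_eq, zb_eq]
  have h1 := sin_AA_pos hb
  have h2 : sin (AA b) < sin (AA x) := by
    refine Real.sin_lt_sin_of_lt_of_le_pi_div_two ?_ (AA_lt hx2).le (AA_anti hx.1 hx.2)
    linarith [AA_pos hb, pi_pos]
  nlinarith

lemma zb_anti' {x b : ℝ} (hx : x ∈ Ioc (1 : ℝ) b) (hb : b ∈ Ioo (1 : ℝ) 2) : zb b ≤ zb x := by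
  rcases hx.2.lt_or_eq with h | h
  · exact (zb_anti ⟨hx.1, h⟩ hb).le
  · rw [h]

lemma arcsin_lt {b ζ : ℝ} (hb : b ∈ Ioo (1 : ℝ) 2) (h1 : ζ < zb b) :
    arcsin (√ζ) < AA b := by
  have hs := sin_AA_pos hb
  have h2 : √ζ < sin (AA b) := by
    rw [Real.sqrt_lt' hs, ← zb_eq]
    exact h1
  have h3 : arcsin (sin (AA b)) = AA b :=
    Real.arcsin_sin (by linarith [AA_pos hb, pi_pos]) (AA_lt hb).le
  rw [← h3]
  refine Real.arcsin_lt_arcsin ?_ h2 (sin_le_one _)
  linarith [Real.sqrt_nonneg ζ]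

lemma arcsin_nn (ζ : ℝ) : 0 ≤ arcsin (√ζ) := Real.arcsin_nonneg.mpr (Real.sqrt_nonneg _)

lemma two_b_AA {b : ℝ} (hb : b ∈ Ioo (1 : ℝ) 2) : 2 * b * AA b = 2 * π - b * π := by
  have h0 : b ≠ 0 := by
    have := hb.1
    positivity
  unfold AA
  field_simp

lemma two_b_AA_lt {b : ℝ} (hb : b ∈ Ioo (1 : ℝ) 2) : 2 * b * AA b < π := by
  rw [two_b_AA hb]
  nlinarith [pi_pos, hb.1]

lemma cos_two_b_AA {b : ℝ} (hb : b ∈ Ioo (1 : ℝ) 2) : cos (2 * b * AA b) = cos (b * π) := by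
  rw [two_b_AA hb, Real.cos_two_pi_sub]

lemma den_pos' {b ζ : ℝ} (hb : b ∈ Ioo (1 : ℝ) 2) (h1 : ζ < zb b) :
    0 < cos (2 * b * arcsin (√ζ)) - cos (b * π) := by
  have hb0 : 0 < b := by linarith [hb.1]
  rw [← cos_two_b_AA hb, sub_pos]
  refine Real.cos_lt_cos_of_nonneg_of_le_pi ?_ (two_b_AA_lt hb).le ?_
  · have := arcsin_nn ζ
    positivity
  · have := arcsin_lt hb h1
    have h2 : 0 < 2 * b := by linarith
    exact mul_lt_mul_of_pos_left this h2

lemma neg_sin_pos {b : ℝ} (hb : b ∈ Ioo (1 : ℝ) 2) : 0 < -sin (b * π) := by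
  have hp := pi_pos
  have h : sin (b * π - π) = -sin (b * π) := Real.sin_sub_pi _
  rw [← h]
  refine sin_pos_of_pos_of_lt_pi ?_ ?_
  · nlinarith [hb.1]
  · nlinarith [hb.2]

lemma gF_pos {b ζ : ℝ} (hb : b ∈ Ioo (1 : ℝ) 2) (h1 : ζ < zb b) : 0 < gF b ζ := by
  have hb0 : 0 < b := by linarith [hb.1]
  unfold gF
  have := den_pos' hb h1
  have := neg_sin_pos hb
  positivity

lemma gF_mono {b ζ ζ' : ℝ} (hb : b ∈ Ioo (1 : ℝ) 2) (h : ζ ≤ ζ') (h1 : ζ' < zb b) :
    gF b ζ ≤ gF b ζ' := by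
  have hb0 : 0 < b := by linarith [hb.1]
  unfold gF
  have h2 := den_pos' hb h1
  have h3 := neg_sin_pos hb
  have h4 : cos (2 * b * arcsin (√ζ')) ≤ cos (2 * b * arcsin (√ζ)) := by
    refine Real.cos_le_cos_of_nonneg_of_le_pi ?_ ?_ ?_
    · have := arcsin_nn ζ
      positivity
    · have := arcsin_lt hb h1
      have h5 := two_b_AA_lt hb
      nlinarith only [h5, hb0, this]
    · have h6 : arcsin (√ζ) ≤ arcsin (√ζ') := Real.monotone_arcsin (Real.sqrt_le_sqrt h)
      have : 0 ≤ 2 * b := by linarith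
      exact mul_le_mul_of_nonneg_left h6 this
  gcongr

lemma gF_cont {b ζ : ℝ} (hb : b ∈ Ioo (1 : ℝ) 2) (h1 : ζ < zb b) : ContinuousAt (gF b) ζ := by
  unfold gF
  refine ContinuousAt.div continuousAt_const ?_ (den_pos' hb h1).ne'
  exact (by fun_prop : Continuous fun ζ : ℝ => cos (2 * b * arcsin (√ζ)) - cos (b * π)).continuousAt

/-- lower bound of the kernel -/
lemma gF_lower {b : ℝ} (hb : b ∈ Ioo (1 : ℝ) 2) :
    ∃ c, 0 < c ∧ ∀ ζ, 0 ≤ ζ → ζ < zb b → c / (zb b - ζ) ≤ gF b ζ := by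
  have hb0 : 0 < b := by linarith [hb.1]
  have hp := pi_pos
  have hA := AA_pos hb
  have hA' := AA_lt hb
  have hs1 : 0 < sin (AA b) := sin_AA_pos hb
  have hs2 : 0 < sin (2 * AA b) := sin_pos_of_pos_of_lt_pi (by linarith) (by linarith)
  obtain ⟨s0, hs0⟩ : ∃ s, s = min (sin (AA b)) (sin (2 * AA b)) := ⟨_, rfl⟩
  have hs0p : 0 < s0 := by rw [hs0]; exact lt_min hs1 hs2
  have hn := neg_sin_pos hb
  refine ⟨b / 2 * (-sin (b * π)) * (s0 / (π * b)), by positivity, ?_⟩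
  intro ζ h0 h1
  have hd := den_pos' hb h1
  have ha := arcsin_lt hb h1
  have ha0 := arcsin_nn ζ
  obtain ⟨a, haa⟩ : ∃ a, a = arcsin (√ζ) := ⟨_, rfl⟩
  rw [← haa] at ha ha0 hd
  -- `sin (A - a) * sin (A + a) = zb - ζ`
  have hsa : sin a ^ 2 = ζ := by
    rw [haa, Real.sin_arcsin (by linarith [Real.sqrt_nonneg ζ]) ?_, Real.sq_sqrt h0]
    exact Real.sqrt_le_one.mpr (by linarith [zb_lt_one hb])
  have e1 : sin (AA b - a) * sin (AA b + a) = zb b - ζ := by
    rw [zb_eq, ← hsa, Real.sin_sub, Real.sin_add]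
    have q1 := sin_sq_add_cos_sq (AA b)
    have q2 := sin_sq_add_cos_sq a
    linear_combination sin (AA b) ^ 2 * q2 - sin a ^ 2 * q1
  have e2 : s0 ≤ sin (AA b + a) := by
    -- concavity of the sine
    have hmem : AA b + a ∈ Icc (AA b) (2 * AA b) := ⟨by linarith, by linarith⟩
    have hconc := strictConcaveOn_sin_Icc.concaveOn
    have := hconc.min_le_of_mem_Icc (x := AA b) (y := 2 * AA b) (z := AA b + a)
      ⟨by linarith, by linarith⟩ ⟨by linarith, by linarith⟩ hmem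
    rw [hs0]
    exact this
  have e3 : 2 / π * (AA b - a) ≤ sin (AA b - a) :=
    Real.mul_le_sin (by linarith) (by linarith)
  have e4 : AA b - a ≤ π / 2 * ((zb b - ζ) / s0) := by
    have h5 : 2 / π * (AA b - a) * s0 ≤ zb b - ζ := by
      rw [← e1]
      have : 0 ≤ 2 / π * (AA b - a) := by
        have : 0 < AA b - a := by linarith
        positivity
      have h6 : 0 ≤ sin (AA b - a) := this.trans e3
      exact mul_le_mul e3 e2 hs0p.le h6
    rw [show π / 2 * ((zb b - ζ) / s0) = (π * (zb b - ζ)) / (2 * s0) by ring,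
      le_div_iff₀ (by positivity)]
    have h7 : 2 / π * (AA b - a) * s0 * π = 2 * (AA b - a) * s0 := by
      field_simp
    nlinarith only [h7, hp, h5]
  have e5 : cos (2 * b * a) - cos (b * π) ≤ 2 * b * (AA b - a) := by
    rw [← cos_two_b_AA hb]
    have h8 : |cos (2 * b * a) - cos (2 * b * AA b)| ≤ |2 * b * a - 2 * b * AA b| :=
      Real.abs_cos_sub_cos_le _ _
    have h9 : |2 * b * a - 2 * b * AA b| = 2 * b * (AA b - a) := by
      rw [abs_sub_comm, abs_of_nonneg]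
      · ring
      · nlinarith only [hb0, ha]
    rw [h9] at h8
    exact (le_abs_self _).trans h8
  have hz : 0 < zb b - ζ := by linarith
  have e6 : cos (2 * b * a) - cos (b * π) ≤ π * b / s0 * (zb b - ζ) := by
    calc cos (2 * b * a) - cos (b * π) ≤ 2 * b * (AA b - a) := e5
      _ ≤ 2 * b * (π / 2 * ((zb b - ζ) / s0)) := by gcongr
      _ = _ := by ring
  unfold gF
  rw [← haa]
  rw [div_le_div_iff₀ hz hd]
  calc b / 2 * -sin (b * π) * (s0 / (π * b)) * (cos (2 * b * a) - cos (b * π))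
      ≤ b / 2 * -sin (b * π) * (s0 / (π * b)) * (π * b / s0 * (zb b - ζ)) := by gcongr
    _ = _ := by field_simp

/-! ### The two variables -/

lemma X_nn {z : ℝ} (t : ℝ) (h0 : 0 ≤ z) : 0 ≤ z * sin t ^ 2 := by positivity

lemma sin_sq_le (t : ℝ) : sin t ^ 2 ≤ 1 := sin_sq_le_one t

lemma X_le {z : ℝ} (t : ℝ) (h0 : 0 ≤ z) : z * sin t ^ 2 ≤ z :=
  mul_le_of_le_one_right h0 (sin_sq_le t)

lemma W_pos {z : ℝ} (t : ℝ) (h0 : 0 ≤ z) (h1 : z < 1) : 0 < 1 - z * sin t ^ 2 := by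
  have := X_le t h0
  linarith

lemma Y_nn {z : ℝ} (t : ℝ) (h0 : 0 ≤ z) (h1 : z < 1) : 0 ≤ YY z t := by
  unfold YY
  have := W_pos t h0 h1
  positivity

lemma Y_sub {z : ℝ} (t : ℝ) (h0 : 0 ≤ z) (h1 : z < 1) :
    z - YY z t = z * (1 - z) * sin t ^ 2 / (1 - z * sin t ^ 2) := by
  unfold YY
  have h2 := (W_pos t h0 h1).ne'
  have h3 := cos_sq' t
  rw [h3]
  field_simp
  ring

lemma Y_le {z : ℝ} (t : ℝ) (h0 : 0 ≤ z) (h1 : z < 1) : YY z t ≤ z := by
  have h2 := Y_sub t h0 h1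
  have h3 := W_pos t h0 h1
  have h4 : 0 ≤ z * (1 - z) * sin t ^ 2 / (1 - z * sin t ^ 2) := by
    have : 0 ≤ 1 - z := by linarith
    positivity
  linarith

lemma dF_eq {b z : ℝ} (t : ℝ) (h0 : 0 ≤ z) (h1 : z < 1) :
    dF b z t = gF b (z * sin t ^ 2) - gF b (YY z t) := by
  unfold dF
  rw [FR_eq (X_nn t h0), FR_eq (Y_nn t h0 h1)]

/-- bound of the difference -/
lemma dF_le {b z m : ℝ} (hb : b ∈ Ioo (1 : ℝ) 2) (t : ℝ) (h0 : 0 ≤ z) (h1 : z < 1)
    (hm : m < zb b) (hX : z * sin t ^ 2 ≤ m) (hY : YY z t ≤ m) :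
    |dF b z t| ≤ gF b m - gF b 0 := by
  rw [dF_eq t h0 h1, abs_le]
  have x1 := gF_mono hb (X_nn t h0) (hX.trans_lt hm)
  have x2 := gF_mono hb hX hm
  have y1 := gF_mono hb (Y_nn t h0 h1) (hY.trans_lt hm)
  have y2 := gF_mono hb hY hm
  constructor <;> linarith

lemma dF_mul_nn {b x y z : ℝ} (hb : b ∈ Ioo (1 : ℝ) 2) (hx : x ∈ Ioc (1 : ℝ) b)
    (hy : y ∈ Ioc (1 : ℝ) b) (t : ℝ) (h0 : 0 ≤ z) (h1 : z < zb b) :
    0 ≤ dF x z t * dF y z t := by
  have hz1 : z < 1 := h1.trans (zb_lt_one hb)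
  have hx2 : x ∈ Ioo (1 : ℝ) 2 := ⟨hx.1, hx.2.trans_lt hb.2⟩
  have hy2 : y ∈ Ioo (1 : ℝ) 2 := ⟨hy.1, hy.2.trans_lt hb.2⟩
  have zx := zb_anti' hx hb
  have zy := zb_anti' hy hb
  have hX := X_le t h0
  have hY := Y_le t h0 hz1
  rw [dF_eq t h0 hz1, dF_eq t h0 hz1]
  rcases le_total (z * sin t ^ 2) (YY z t) with h | h
  · have k1 := gF_mono hx2 h (by linarith)
    have k2 := gF_mono hy2 h (by linarith)
    exact mul_nonneg_of_nonpos_of_nonpos (by linarith) (by linarith)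
  · have k1 := gF_mono hx2 h (by linarith)
    have k2 := gF_mono hy2 h (by linarith)
    exact mul_nonneg (by linarith) (by linarith)

/-! ### Integrability -/

lemma meas_dF (b z : ℝ) : Measurable (dF b z) :=
  (measurable_dF b).comp (measurable_const.prodMk measurable_id)

lemma meas_W (z : ℝ) : Measurable (fun t : ℝ => √(1 - z * sin t ^ 2)) :=
  Real.continuous_sqrt.measurable.comp (by fun_prop)

lemma integrableOn_bdd {f : ℝ → ℝ} {M : ℝ} (hf : Measurable f) (h : ∀ t, |f t| ≤ M) :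
    IntegrableOn f (Ioo 0 (π / 2)) := by
  refine Measure.integrableOn_of_bounded (M := M) (by simp) hf.aestronglyMeasurable ?_
  exact Eventually.of_forall fun t => h t

lemma W_ge {z : ℝ} (t : ℝ) (h0 : 0 ≤ z) : √(1 - z) ≤ √(1 - z * sin t ^ 2) :=
  Real.sqrt_le_sqrt (by linarith [X_le t h0])

lemma W_le {z : ℝ} (t : ℝ) (h0 : 0 ≤ z) : √(1 - z * sin t ^ 2) ≤ 1 := by
  exact Real.sqrt_le_one.mpr (by linarith [X_nn t h0])

lemma int_NN {b z : ℝ} (hb : b ∈ Ioo (1 : ℝ) 2) (h0 : 0 ≤ z) (h1 : z < zb b) :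
    IntegrableOn (fun t => |dF b z t| / √(1 - z * sin t ^ 2)) (Ioo 0 (π / 2)) := by
  have hz1 : z < 1 := h1.trans (zb_lt_one hb)
  have hs : 0 < √(1 - z) := Real.sqrt_pos.mpr (by linarith)
  refine integrableOn_bdd (M := (gF b z - gF b 0) / √(1 - z))
    ((meas_dF b z).abs.div (meas_W z)) ?_
  intro t
  have h2 := dF_le hb t h0 hz1 h1 (X_le t h0) (Y_le t h0 hz1)
  have h3 := W_ge t h0
  rw [abs_div, abs_abs, abs_of_nonneg (Real.sqrt_nonneg _)]
  have h4 : 0 ≤ gF b z - gF b 0 := (abs_nonneg _).trans h2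
  gcongr

lemma int_DR {b x y z : ℝ} (hb : b ∈ Ioo (1 : ℝ) 2) (hx : x ∈ Ioc (1 : ℝ) b)
    (hy : y ∈ Ioc (1 : ℝ) b) (h0 : 0 ≤ z) (h1 : z < zb b) :
    IntegrableOn (fun t => dF x z t * dF y z t / √(1 - z * sin t ^ 2)) (Ioo 0 (π / 2)) := by
  have hz1 : z < 1 := h1.trans (zb_lt_one hb)
  have hx2 : x ∈ Ioo (1 : ℝ) 2 := ⟨hx.1, hx.2.trans_lt hb.2⟩
  have hy2 : y ∈ Ioo (1 : ℝ) 2 := ⟨hy.1, hy.2.trans_lt hb.2⟩
  have zx := zb_anti' hx hb
  have zy := zb_anti' hy hb
  have hs : 0 < √(1 - z) := Real.sqrt_pos.mpr (by linarith)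
  refine integrableOn_bdd (M := (gF x z - gF x 0) * (gF y z - gF y 0) / √(1 - z))
    (((meas_dF x z).mul (meas_dF y z)).div (meas_W z)) ?_
  intro t
  have h2 := dF_le hx2 t h0 hz1 (h1.trans_le zx) (X_le t h0) (Y_le t h0 hz1)
  have h2' := dF_le hy2 t h0 hz1 (h1.trans_le zy) (X_le t h0) (Y_le t h0 hz1)
  have h3 := W_ge t h0
  rw [abs_div, abs_mul, abs_of_nonneg (Real.sqrt_nonneg _)]
  have h4 : 0 ≤ gF x z - gF x 0 := (abs_nonneg _).trans h2
  have h4' : 0 ≤ gF y z - gF y 0 := (abs_nonneg _).trans h2'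
  gcongr

lemma DR_nn {b x y z : ℝ} (hb : b ∈ Ioo (1 : ℝ) 2) (hx : x ∈ Ioc (1 : ℝ) b)
    (hy : y ∈ Ioc (1 : ℝ) b) (h0 : 0 ≤ z) (h1 : z < zb b) : 0 ≤ DR x y z := by
  unfold DR
  refine mul_nonneg (by norm_num) ?_
  refine integral_nonneg fun t => ?_
  exact div_nonneg (dF_mul_nn hb hx hy t h0 h1) (Real.sqrt_nonneg _)

lemma NN_nn (b z : ℝ) : 0 ≤ NN b z := by
  unfold NN
  refine integral_nonneg fun t => ?_
  positivity

/-! ### Divergence of the normalising integral -/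

lemma NN_lower {b : ℝ} (hb : b ∈ Ioo (1 : ℝ) 2) : ∃ c K d0 : ℝ, 0 < c ∧ 0 < d0 ∧ d0 < zb b ∧
    ∀ z, zb b - d0 < z → z < zb b →
      √(zb b - z) * (c / (2 * (zb b - z)) - K) ≤ NN b z := by
  obtain ⟨c, hc, hlow⟩ := gF_lower hb
  have hz0 := zb_pos hb
  have hz1 := zb_lt_one hb
  have hp := pi_pos
  refine ⟨c, gF b (zb b / 2), min (zb b / 2) (min 1 ((1 - zb b) / 2)), hc, ?_, ?_, ?_⟩
  · have : 0 < (1 - zb b) / 2 := by linarith
    positivity
  · exact (min_le_left _ _).trans_lt (by linarith)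
  · intro z h1 h2
    have m1 : zb b - z < zb b / 2 := by
      have := min_le_left (zb b / 2) (min 1 ((1 - zb b) / 2)); linarith
    have m2 : zb b - z < 1 := by
      have := (min_le_right (zb b / 2) (min 1 ((1 - zb b) / 2))).trans (min_le_left _ _); linarith
    have m3 : zb b - z < (1 - zb b) / 2 := by
      have := (min_le_right (zb b / 2) (min 1 ((1 - zb b) / 2))).trans (min_le_right _ _); linarith
    have h0 : 0 ≤ z := by linarith
    have hzl : z < 1 := by linarith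
    obtain ⟨d, hd⟩ : ∃ d, d = zb b - z := ⟨_, rfl⟩
    rw [← hd] at m1 m2 m3 ⊢
    have hd0 : 0 < d := by linarith
    have hsd : 0 < √d := Real.sqrt_pos.mpr hd0
    have hsd2 : √d ^ 2 = d := Real.sq_sqrt hd0.le
    have hsd1 : √d < 1 := by
      rw [Real.sqrt_lt' one_pos]; linarith
    have hsub : Ioo (π / 2 - √d) (π / 2) ⊆ Ioo 0 (π / 2) := by
      refine Ioo_subset_Ioo_left ?_
      linarith [Real.pi_gt_three]
    have hI := int_NN hb h0 h2
    have step1 : ∫ t in Ioo (π / 2 - √d) (π / 2), |dF b z t| / √(1 - z * sin t ^ 2) ≤ NN b z := by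
      unfold NN
      refine setIntegral_mono_set hI ?_ (Eventually.of_forall hsub)
      exact Eventually.of_forall fun t => by positivity
    refine le_trans ?_ step1
    have hvol : volume.real (Ioo (π / 2 - √d) (π / 2)) = √d := by
      rw [Real.volume_real_Ioo_of_le (by linarith only [hsd])]
      ring
    have step2 : ∫ t in Ioo (π / 2 - √d) (π / 2), (c / (2 * d) - gF b (zb b / 2))
        ≤ ∫ t in Ioo (π / 2 - √d) (π / 2), |dF b z t| / √(1 - z * sin t ^ 2) := by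
      refine setIntegral_mono_on ?_ (hI.mono_set hsub) measurableSet_Ioo ?_
      · exact integrableOn_const (by simp)
      · intro t ht
        have hc0 : 0 ≤ cos t := cos_nonneg_of_mem_Icc ⟨by linarith only [hsd1, ht.1, Real.pi_gt_three], ht.2.le⟩
        have hc1 : cos t ≤ √d := by
          have e : cos t = sin (π / 2 - t) := by rw [Real.sin_pi_div_two_sub]
          rw [e]
          have := Real.sin_le (x := π / 2 - t) (by linarith [ht.2])
          linarith [ht.1]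
        have hc2 : cos t ^ 2 ≤ d := by
          rw [← hsd2]; gcongr
        have hX : zb b - z * sin t ^ 2 ≤ 2 * d := by
          have : sin t ^ 2 = 1 - cos t ^ 2 := by rw [sin_sq]
          rw [this]
          nlinarith only [hd, hc2, hz1, sq_nonneg (cos t)]
        have hY : YY z t ≤ zb b / 2 := by
          unfold YY
          have hW := W_pos t h0 hzl
          rw [div_le_iff₀ hW]
          have k1 : 1 - zb b ≤ 1 - z * sin t ^ 2 := by
            have := X_le t h0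
            linarith only [h2, this]
          have k2 : z * cos t ^ 2 ≤ zb b * ((1 - zb b) / 2) := by
            have : z ≤ zb b := by linarith only [h2]
            have h9 : cos t ^ 2 ≤ (1 - zb b) / 2 := by linarith only [m3, hc2]
            gcongr
          nlinarith only [k2, hz0, k1]
        have hXlt : z * sin t ^ 2 < zb b := (X_le t h0).trans_lt h2
        have l1 := hlow _ (X_nn t h0) hXlt
        have l2 : c / (2 * d) ≤ c / (zb b - z * sin t ^ 2) := by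
          have : 0 < zb b - z * sin t ^ 2 := by linarith only [hXlt]
          gcongr
        have l3 := gF_mono hb hY (by linarith)
        have l4 : c / (2 * d) - gF b (zb b / 2) ≤ |dF b z t| := by
          rw [dF_eq t h0 hzl]
          refine le_trans ?_ (le_abs_self _)
          linarith
        have hWs : 0 < √(1 - z * sin t ^ 2) := Real.sqrt_pos.mpr (W_pos t h0 hzl)
        refine l4.trans ?_
        rw [le_div_iff₀ hWs]
        exact mul_le_of_le_one_right (abs_nonneg _) (W_le t h0)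
    rw [setIntegral_const, hvol, smul_eq_mul] at step2
    exact step2

lemma NN_tendsto {b : ℝ} (hb : b ∈ Ioo (1 : ℝ) 2) : Tendsto (NN b) (𝓝[<] zb b) atTop := by
  obtain ⟨c, K, d0, hc, hd0, hd1, h⟩ := NN_lower hb
  have hz0 := zb_pos hb
  have h1 : Tendsto (fun z => zb b - z) (𝓝[<] zb b) (𝓝[>] 0) := by
    refine tendsto_nhdsWithin_iff.mpr ⟨?_, ?_⟩
    · have : Tendsto (fun z => zb b - z) (𝓝 (zb b)) (𝓝 (zb b - zb b)) :=
        tendsto_const_nhds.sub tendsto_id
      rw [sub_self] at this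
      exact this.mono_left nhdsWithin_le_nhds
    · filter_upwards [self_mem_nhdsWithin] with z hz
      have hz' : z < zb b := hz
      exact sub_pos.mpr hz'
  have h2 : Tendsto (fun d : ℝ => √d * (c / (2 * d) - K)) (𝓝[>] 0) atTop := by
    have h3 : Tendsto (fun d : ℝ => √d) (𝓝[>] 0) (𝓝[>] 0) := by
      refine tendsto_nhdsWithin_iff.mpr ⟨?_, ?_⟩
      · have := (Real.continuous_sqrt.tendsto 0)
        rw [Real.sqrt_zero] at this
        exact this.mono_left nhdsWithin_le_nhds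
      · filter_upwards [self_mem_nhdsWithin] with z hz
        exact Real.sqrt_pos.mpr hz
    have h4 : Tendsto (fun d : ℝ => c / 2 * (√d)⁻¹) (𝓝[>] 0) atTop :=
      (tendsto_inv_nhdsGT_zero.comp h3).const_mul_atTop (by positivity)
    have h5 : Tendsto (fun d : ℝ => -(K * √d)) (𝓝[>] 0) (𝓝 (-(K * 0))) :=
      ((h3.mono_right nhdsWithin_le_nhds).const_mul K).neg
    refine (h4.atTop_add h5).congr' ?_
    filter_upwards [self_mem_nhdsWithin] with d hd
    have hd' : 0 < d := hd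
    have hs : 0 < √d := Real.sqrt_pos.mpr hd'
    have hs2 : √d * √d = d := Real.mul_self_sqrt hd'.le
    have e : c / (2 * d) = c / 2 * (√d)⁻¹ * (√d)⁻¹ := by
      have e1 : (√d)⁻¹ * (√d)⁻¹ = d⁻¹ := by rw [← mul_inv, hs2]
      rw [mul_assoc, e1]
      field_simp
    rw [e]
    field_simp
    ring
  refine tendsto_atTop_mono' _ ?_ (h2.comp h1)
  have hm : Ioo (zb b - d0) (zb b) ∈ 𝓝[<] zb b := Ioo_mem_nhdsLT (by linarith)
  filter_upwards [hm] with z hz
  exact h z hz.1 hz.2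

/-! ### Concentration -/

lemma near {b x : ℝ} (hb : b ∈ Ioo (1 : ℝ) 2) (hx : x ∈ Ioo (1 : ℝ) b) {ε : ℝ} (hε : 0 < ε) :
    ∃ κ z0 : ℝ, 0 < κ ∧ zb b / 2 ≤ z0 ∧ z0 < zb b ∧ ∀ z t : ℝ, z0 < z → z < zb b →
      (sin t ^ 2 < κ ∨ cos t ^ 2 < κ) → |(|dF x z t|) - Del b x| ≤ ε := by
  have hx2 : x ∈ Ioo (1 : ℝ) 2 := ⟨hx.1, hx.2.trans hb.2⟩
  have hzx := zb_anti hx hb
  have hz0 := zb_pos hb
  have hz1 := zb_lt_one hb
  have c1 := gF_cont hx2 hzx
  have c0 := gF_cont hx2 (hz0.trans hzx)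
  rw [Metric.continuousAt_iff] at c1 c0
  obtain ⟨η1, hη1, H1⟩ := c1 (ε / 2) (by linarith)
  obtain ⟨η0, hη0, H0⟩ := c0 (ε / 2) (by linarith)
  simp only [Real.dist_eq, sub_zero] at H1 H0
  obtain ⟨η, hη⟩ : ∃ η, η = min η1 η0 := ⟨_, rfl⟩
  have hηp : 0 < η := by rw [hη]; exact lt_min hη1 hη0
  have hηa : η ≤ η1 := by rw [hη]; exact min_le_left _ _
  have hηb : η ≤ η0 := by rw [hη]; exact min_le_right _ _
  refine ⟨min (η / 2) (η * (1 - zb b)), max (zb b / 2) (zb b - η / 2), ?_, le_max_left _ _, ?_, ?_⟩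
  · have : 0 < 1 - zb b := by linarith
    exact lt_min (by linarith) (by positivity)
  · exact max_lt (by linarith) (by linarith)
  · intro z t h1 h2 h3
    have h0 : 0 ≤ z := by
      have := (le_max_left (zb b / 2) (zb b - η / 2)).trans h1.le
      linarith
    have hzη : zb b - z < η / 2 := by
      have := (le_max_right (zb b / 2) (zb b - η / 2)).trans_lt h1
      linarith
    have hzl : z < 1 := by linarith
    have hDel : Del b x = gF x (zb b) - gF x 0 := by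
      unfold Del
      rw [FR_eq hz0.le, FR_eq le_rfl]
    have hDel0 : 0 ≤ Del b x := by
      rw [hDel]
      have := gF_mono hx2 hz0.le hzx
      linarith
    rw [dF_eq t h0 hzl]
    have hY := Y_sub t h0 hzl
    have hX0 := X_nn t h0
    have hY0 := Y_nn t h0 hzl
    have hX1 := X_le t h0
    have hY1 := Y_le t h0 hzl
    have hW := W_pos t h0 hzl
    rcases h3 with h3 | h3
    · have a1 : sin t ^ 2 < η / 2 := h3.trans_le (min_le_left _ _)
      -- `X` near `0`, `Y` near `zb b`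
      have b1 : |z * sin t ^ 2| < η0 := by
        rw [abs_of_nonneg hX0]
        have : z * sin t ^ 2 ≤ 1 * sin t ^ 2 := by gcongr
        linarith only [hηb, h2, hzη, a1, this]
      have b2 : |YY z t - zb b| < η1 := by
        have e1 : z - YY z t ≤ sin t ^ 2 := by
          rw [hY, div_le_iff₀ hW]
          have : z * (1 - z) ≤ 1 - z * sin t ^ 2 := by nlinarith only [hX1, hz1, h2]
          nlinarith only [this, sq_nonneg (sin t)]
        rw [abs_sub_comm, abs_of_nonneg (by linarith)]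
        linarith
      have k1 := H0 b1
      have k2 := H1 b2
      rw [hDel] at hDel0 ⊢
      rw [abs_lt] at k1 k2
      rw [abs_sub_comm, abs_le]
      have k3 : gF x (z * sin t ^ 2) - gF x (YY z t) ≤ ε := by linarith
      rcases abs_cases (gF x (z * sin t ^ 2) - gF x (YY z t)) with ⟨e, _⟩ | ⟨e, _⟩ <;>
        rw [e] <;> constructor <;> linarith
    · have a1 : cos t ^ 2 < η / 2 := h3.trans_le (min_le_left _ _)
      have a2 : cos t ^ 2 < η * (1 - zb b) := h3.trans_le (min_le_right _ _)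
      have b1 : |z * sin t ^ 2 - zb b| < η1 := by
        rw [abs_sub_comm, abs_of_nonneg (by linarith)]
        have : sin t ^ 2 = 1 - cos t ^ 2 := by rw [sin_sq]
        rw [this]
        nlinarith only [hηa, hzη, a1, hz1, h2, sq_nonneg (cos t)]
      have b2 : |YY z t| < η0 := by
        rw [abs_of_nonneg hY0]
        refine lt_of_lt_of_le ?_ hηb
        unfold YY
        rw [div_lt_iff₀ hW]
        have k1 : η * (1 - zb b) ≤ η * (1 - z * sin t ^ 2) := by
          have : 1 - zb b ≤ 1 - z * sin t ^ 2 := by linarith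
          gcongr
        have k2 : z * cos t ^ 2 ≤ 1 * cos t ^ 2 := by gcongr
        linarith
      have k1 := H1 b1
      have k2 := H0 b2
      rw [hDel] at hDel0 ⊢
      rw [abs_lt] at k1 k2
      rw [abs_le]
      rcases abs_cases (gF x (z * sin t ^ 2) - gF x (YY z t)) with ⟨e, _⟩ | ⟨e, _⟩ <;>
        rw [e] <;> constructor <;> linarith

lemma approx {b x : ℝ} (hb : b ∈ Ioo (1 : ℝ) 2) (hx : x ∈ Ioo (1 : ℝ) b) {ε : ℝ} (hε : 0 < ε) :
    ∃ K z0 : ℝ, 0 ≤ z0 ∧ z0 < zb b ∧ ∀ z : ℝ, z0 < z → z < zb b →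
      |DR b x z - 2 * Del b x * NN b z| ≤ 2 * ε * NN b z + K := by
  obtain ⟨κ, z0, hκ, hz0a, hz0b, hn⟩ := near hb hx hε
  have hx2 : x ∈ Ioo (1 : ℝ) 2 := ⟨hx.1, hx.2.trans hb.2⟩
  have hxc : x ∈ Ioc (1 : ℝ) b := ⟨hx.1, hx.2.le⟩
  have hbc : b ∈ Ioc (1 : ℝ) b := ⟨hb.1, le_rfl⟩
  have hzx := zb_anti hx hb
  have hz0 := zb_pos hb
  have hz1 := zb_lt_one hb
  obtain ⟨m, hm⟩ : ∃ m, m = zb b - zb b / 2 * (1 - zb b) * κ := ⟨_, rfl⟩
  have hmlt : m < zb b := by
    have : 0 < 1 - zb b := by linarith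
    have : 0 < zb b / 2 * (1 - zb b) * κ := by positivity
    linarith
  have hDel : Del b x = gF x (zb b) - gF x 0 := by
    unfold Del
    rw [FR_eq hz0.le, FR_eq le_rfl]
  have hDel0 : 0 ≤ Del b x := by
    rw [hDel]
    have := gF_mono hx2 hz0.le hzx
    linarith
  have hsq : 0 < √(1 - zb b) := Real.sqrt_pos.mpr (by linarith)
  obtain ⟨K, hK⟩ : ∃ K, K = gF b m * (2 * Del b x) / √(1 - zb b) := ⟨_, rfl⟩
  have hK0 : 0 ≤ K := by
    have := gF_pos hb hmlt
    rw [hK]; positivity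
  refine ⟨2 * (K * (π / 2)), z0, by linarith, hz0b, ?_⟩
  intro z h1 h2
  have h0 : 0 ≤ z := by linarith
  have hzl : z < 1 := by linarith
  have hI1 := int_DR hb hbc hxc h0 h2
  have hI2 := int_NN hb h0 h2
  have hI3 : IntegrableOn (fun _ : ℝ => K) (Ioo 0 (π / 2)) := integrableOn_const (by simp)
  have e1 : DR b x z - 2 * Del b x * NN b z = 2 * ∫ t in Ioo 0 (π / 2),
      (dF b z t * dF x z t / √(1 - z * sin t ^ 2)
        - Del b x * (|dF b z t| / √(1 - z * sin t ^ 2))) := by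
    rw [integral_sub hI1 (hI2.const_mul _), integral_const_mul]
    unfold DR NN
    ring
  rw [e1, abs_mul, abs_of_pos (by norm_num : (0 : ℝ) < 2)]
  have e2 : ∫ t in Ioo 0 (π / 2), (ε * (|dF b z t| / √(1 - z * sin t ^ 2)) + K)
      = ε * NN b z + K * (π / 2) := by
    rw [integral_add (hI2.const_mul _) hI3, integral_const_mul, setIntegral_const]
    have hv : volume.real (Ioo 0 (π / 2)) = π / 2 := by
      rw [Real.volume_real_Ioo_of_le (by positivity)]
      ring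
    rw [hv, smul_eq_mul]
    unfold NN
    ring
  have e3 : |∫ t in Ioo 0 (π / 2), (dF b z t * dF x z t / √(1 - z * sin t ^ 2)
        - Del b x * (|dF b z t| / √(1 - z * sin t ^ 2)))| ≤ ε * NN b z + K * (π / 2) := by
    rw [← e2, ← Real.norm_eq_abs]
    refine norm_integral_le_of_norm_le ((hI2.const_mul _).add hI3) ?_
    refine Eventually.of_forall fun t => ?_
    have hprod : dF b z t * dF x z t = |dF b z t| * |dF x z t| := by
      rw [← abs_mul, abs_of_nonneg (dF_mul_nn hb hbc hxc t h0 h2)]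
    have hW : 0 < √(1 - z * sin t ^ 2) := Real.sqrt_pos.mpr (W_pos t h0 hzl)
    have e4 : dF b z t * dF x z t / √(1 - z * sin t ^ 2)
        - Del b x * (|dF b z t| / √(1 - z * sin t ^ 2))
        = |dF b z t| / √(1 - z * sin t ^ 2) * (|dF x z t| - Del b x) := by
      rw [hprod]; ring
    rw [e4, norm_mul, Real.norm_eq_abs, Real.norm_eq_abs, abs_div, abs_abs, abs_of_pos hW]
    have hn0 : 0 ≤ |dF b z t| / √(1 - z * sin t ^ 2) := by positivity
    by_cases hc : sin t ^ 2 < κ ∨ cos t ^ 2 < κ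
    · have := hn z t h1 h2 hc
      calc |dF b z t| / √(1 - z * sin t ^ 2) * |(|dF x z t|) - Del b x|
          ≤ |dF b z t| / √(1 - z * sin t ^ 2) * ε := by gcongr
        _ ≤ _ := by linarith only [hK0]
    · rw [not_or, not_lt, not_lt] at hc
      obtain ⟨hs, hcs⟩ := hc
      have hzb2 : zb b / 2 ≤ z := by linarith only [hz0a, h1]
      have hw : 0 < 1 - zb b := by linarith only [hz1]
      have hXm : z * sin t ^ 2 ≤ m := by
        have : sin t ^ 2 = 1 - cos t ^ 2 := by rw [sin_sq]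
        rw [this, hm]
        have k1 : zb b / 2 * κ ≤ z * cos t ^ 2 := by gcongr
        have k2 : zb b / 2 * (1 - zb b) * κ ≤ zb b / 2 * κ := by
          have : zb b / 2 * (1 - zb b) ≤ zb b / 2 := by nlinarith only [hz0a, hz0b]
          gcongr
        linarith only [h2, k1, k2]
      have hYm : YY z t ≤ m := by
        have hY := Y_sub t h0 hzl
        have hW' := W_pos t h0 hzl
        have k1 : zb b / 2 * (1 - zb b) * κ ≤ z * (1 - z) * sin t ^ 2 := by
          have : 1 - zb b ≤ 1 - z := by linarith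
          gcongr
        have k2 : z * (1 - z) * sin t ^ 2 ≤ z * (1 - z) * sin t ^ 2 / (1 - z * sin t ^ 2) := by
          rw [le_div_iff₀ hW']
          have : 0 ≤ z * (1 - z) * sin t ^ 2 := by
            have : 0 ≤ 1 - z := by linarith only [hz1, h2]
            positivity
          have := X_nn t h0
          nlinarith only [hz1, hm, hmlt, k1, h2]
        linarith only [hm, h2, hY, k1, k2]
      have k3 := dF_le hb t h0 hzl hmlt hXm hYm
      have k4 : |dF b z t| ≤ gF b m := by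
        have := gF_pos hb (zb_pos hb)
        linarith
      have k5 : |(|dF x z t|) - Del b x| ≤ 2 * Del b x := by
        have := dF_le hx2 t h0 hzl hzx ((X_le t h0).trans h2.le) ((Y_le t h0 hzl).trans h2.le)
        rw [← hDel] at this
        rw [abs_le]
        constructor <;> linarith [abs_nonneg (dF x z t)]
      have k6 : √(1 - zb b) ≤ √(1 - z * sin t ^ 2) := by
        refine Real.sqrt_le_sqrt ?_
        have := X_le t h0
        linarith
      have k7 : |dF b z t| / √(1 - z * sin t ^ 2) * |(|dF x z t|) - Del b x| ≤ K := by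
        rw [hK]
        have := gF_pos hb hmlt
        calc |dF b z t| / √(1 - z * sin t ^ 2) * |(|dF x z t|) - Del b x|
            ≤ gF b m / √(1 - zb b) * (2 * Del b x) := by gcongr
          _ = _ := by ring
      have : 0 ≤ ε * (|dF b z t| / √(1 - z * sin t ^ 2)) := by positivity
      linarith only [k7, this]
  linarith

lemma lim_Del {b x : ℝ} (hb : b ∈ Ioo (1 : ℝ) 2) (hx : x ∈ Ioo (1 : ℝ) b) :
    Tendsto (fun z => DR b x z / NN b z) (𝓝[<] zb b) (𝓝 (2 * Del b x)) := by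
  rw [Metric.tendsto_nhds]
  intro ε hε
  obtain ⟨K, z0, hz0, hz0b, h⟩ := approx hb hx (ε := ε / 8) (by linarith)
  have h1 := (NN_tendsto hb).eventually_gt_atTop (4 * |K| / ε)
  have h2 := (NN_tendsto hb).eventually_gt_atTop 0
  have h3 : Ioo z0 (zb b) ∈ 𝓝[<] zb b := Ioo_mem_nhdsLT hz0b
  filter_upwards [h1, h2, h3] with z n1 n2 n3
  have h4 := h z n3.1 n3.2
  rw [Real.dist_eq]
  have e : DR b x z / NN b z - 2 * Del b x = (DR b x z - 2 * Del b x * NN b z) / NN b z := by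
    field_simp
  rw [e, abs_div, abs_of_pos n2, div_lt_iff₀ n2]
  have h5 : 4 * |K| < ε * NN b z := by
    rw [div_lt_iff₀ hε] at n1
    linarith
  have h6 := le_abs_self K
  have h7 := abs_nonneg K
  linarith only [h4, h5, h6, h7]

lemma lim_zero {b x y : ℝ} (hb : b ∈ Ioo (1 : ℝ) 2) (hx : x ∈ Ioo (1 : ℝ) b)
    (hy : y ∈ Ioo (1 : ℝ) b) : Tendsto (fun z => DR x y z / NN b z) (𝓝[<] zb b) (𝓝 0) := by
  have hx2 : x ∈ Ioo (1 : ℝ) 2 := ⟨hx.1, hx.2.trans hb.2⟩
  have hy2 : y ∈ Ioo (1 : ℝ) 2 := ⟨hy.1, hy.2.trans hb.2⟩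
  have hxc : x ∈ Ioc (1 : ℝ) b := ⟨hx.1, hx.2.le⟩
  have hyc : y ∈ Ioc (1 : ℝ) b := ⟨hy.1, hy.2.le⟩
  have hzx := zb_anti hx hb
  have hzy := zb_anti hy hb
  have hz0 := zb_pos hb
  have hz1 := zb_lt_one hb
  have hsq : 0 < √(1 - zb b) := Real.sqrt_pos.mpr (by linarith)
  obtain ⟨C, hC⟩ : ∃ C, C = 2 * ((gF x (zb b) - gF x 0) * (gF y (zb b) - gF y 0) / √(1 - zb b)
    * volume.real (Ioo 0 (π / 2))) := ⟨_, rfl⟩
  have key : ∀ z, 0 < z → z < zb b → |DR x y z| ≤ C := by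
    intro z h0 h2
    have hzl : z < 1 := by linarith
    unfold DR
    rw [abs_mul, abs_of_pos (by norm_num : (0 : ℝ) < 2), hC]
    refine mul_le_mul_of_nonneg_left ?_ (by norm_num)
    rw [← Real.norm_eq_abs]
    refine norm_setIntegral_le_of_norm_le_const (by simp) ?_
    intro t _
    have k1 := dF_le hx2 t h0.le hzl hzx ((X_le t h0.le).trans h2.le) ((Y_le t h0.le hzl).trans h2.le)
    have k2 := dF_le hy2 t h0.le hzl hzy ((X_le t h0.le).trans h2.le) ((Y_le t h0.le hzl).trans h2.le)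
    have k6 : √(1 - zb b) ≤ √(1 - z * sin t ^ 2) := by
      refine Real.sqrt_le_sqrt ?_
      have := X_le t h0.le
      linarith
    rw [Real.norm_eq_abs, abs_div, abs_mul, abs_of_nonneg (Real.sqrt_nonneg _)]
    have k3 : 0 ≤ gF x (zb b) - gF x 0 := (abs_nonneg _).trans k1
    have k4 : 0 ≤ gF y (zb b) - gF y 0 := (abs_nonneg _).trans k2
    gcongr
  have h1 : Tendsto (fun z => C / NN b z) (𝓝[<] zb b) (𝓝 0) := (NN_tendsto hb).const_div_atTop C
  refine squeeze_zero_norm' ?_ h1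
  have h3 : Ioo 0 (zb b) ∈ 𝓝[<] zb b := Ioo_mem_nhdsLT hz0
  filter_upwards [h3] with z hz
  rw [norm_div, Real.norm_eq_abs, Real.norm_eq_abs, abs_of_nonneg (NN_nn b z)]
  have := key z hz.1 hz.2
  have := NN_nn b z
  gcongr

lemma lim_bb {b : ℝ} (hb : b ∈ Ioo (1 : ℝ) 2) :
    Tendsto (fun z => DR b b z / NN b z) (𝓝[<] zb b) atTop := by
  have hbc : b ∈ Ioc (1 : ℝ) b := ⟨hb.1, le_rfl⟩
  have hz0 := zb_pos hb
  have hz1 := zb_lt_one hb
  have hp := pi_pos
  have hsq : 0 < √(1 - zb b) := Real.sqrt_pos.mpr (by linarith)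
  obtain ⟨C, hC⟩ : ∃ C, C = (√(1 - zb b))⁻¹ * (π / 2) := ⟨_, rfl⟩
  have hC0 : 0 < C := by rw [hC]; positivity
  -- `dF ^ 2 ≥ 2 A |dF| - A ^ 2`
  have key : ∀ A z, 0 < A → 0 < z → z < zb b → 4 * A * NN b z - 2 * A ^ 2 * C ≤ DR b b z := by
    intro A z hA h0 h2
    have hzl : z < 1 := by linarith
    have hI1 := int_DR hb hbc hbc h0.le h2
    have hI2 := int_NN hb h0.le h2
    have hI3 : IntegrableOn (fun _ : ℝ => A ^ 2 * (√(1 - zb b))⁻¹) (Ioo 0 (π / 2)) :=
      integrableOn_const (by simp)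
    have e1 : ∫ t in Ioo 0 (π / 2), (2 * A * (|dF b z t| / √(1 - z * sin t ^ 2))
        - A ^ 2 * (√(1 - zb b))⁻¹) = 2 * A * NN b z - A ^ 2 * C := by
      rw [integral_sub (hI2.const_mul _) hI3, integral_const_mul, setIntegral_const]
      have hv : volume.real (Ioo 0 (π / 2)) = π / 2 := by
        rw [Real.volume_real_Ioo_of_le (by positivity)]
        ring
      rw [hv, smul_eq_mul, hC]
      unfold NN
      ring
    have e2 : 2 * A * NN b z - A ^ 2 * C ≤
        ∫ t in Ioo 0 (π / 2), dF b z t * dF b z t / √(1 - z * sin t ^ 2) := by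
      rw [← e1]
      refine setIntegral_mono_on ((hI2.const_mul _).sub hI3) hI1 measurableSet_Ioo ?_
      intro t _
      have hW : 0 < √(1 - z * sin t ^ 2) := Real.sqrt_pos.mpr (W_pos t h0.le hzl)
      have k6 : √(1 - zb b) ≤ √(1 - z * sin t ^ 2) := by
        refine Real.sqrt_le_sqrt ?_
        have := X_le t h0.le
        linarith
      have k7 : (√(1 - z * sin t ^ 2))⁻¹ ≤ (√(1 - zb b))⁻¹ := by gcongr
      have k8 : 2 * A * |dF b z t| - A ^ 2 ≤ dF b z t * dF b z t := by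
        rw [← abs_mul_abs_self (dF b z t)]
        linarith only [sq_nonneg (|dF b z t| - A)]
      have k9 : 0 ≤ (√(1 - z * sin t ^ 2))⁻¹ := by positivity
      rw [div_eq_mul_inv, div_eq_mul_inv]
      have k10 := mul_le_mul_of_nonneg_right k8 k9
      have k11 : A ^ 2 * (√(1 - z * sin t ^ 2))⁻¹ ≤ A ^ 2 * (√(1 - zb b))⁻¹ := by gcongr
      linarith only [k10, k11]
    unfold DR
    linarith
  rw [tendsto_atTop]
  intro A
  obtain ⟨A', hA'⟩ : ∃ A', A' = max A 1 := ⟨_, rfl⟩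
  have hA0 : 0 < A' := by rw [hA']; exact lt_of_lt_of_le one_pos (le_max_right _ _)
  have hA1 : A ≤ A' := by rw [hA']; exact le_max_left _ _
  have h1 := (NN_tendsto hb).eventually_gt_atTop (A' * C)
  have h3 : Ioo 0 (zb b) ∈ 𝓝[<] zb b := Ioo_mem_nhdsLT hz0
  filter_upwards [h1, h3] with z n1 n3
  have n2 : 0 < NN b z := lt_trans (by positivity) n1
  rw [le_div_iff₀ n2]
  have k1 := key A' z hA0 n3.1 n3.2
  have k2 : A * NN b z ≤ A' * NN b z := by gcongr
  nlinarith only [k1, k2, hC0, mul_lt_mul_of_pos_left n1 hA0]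

theorem sing : SingStmt := by
  intro b hb
  refine ⟨zb_pos hb, fun x hx => zb_anti hx hb, NN_tendsto hb, fun x hx => lim_Del hb hx,
    fun x y hx hy => lim_zero hb hx hy, lim_bb hb, ?_⟩
  intro x y z hx hy h0 h1
  exact DR_nn hb hx hy h0 h1

end Pool.Agent.XQ.U.H54
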