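import Pool.Agent.Helper12_XQ.Stmt

/-! Squad XQ, module U_SINX: power series of `cosh (2 τ arcsin x)` and `cos (2 τ arsinh x)`. -/

set_option autoImplicit false

namespace Pool.Agent.XQ.U.H54

open MeasureTheory Filter Topology Real Set

/-! ### Power series with radius of convergence at least one -/

/-- absolute convergence in the open unit disc -/
def Good (a : ℕ → ℝ) : Prop := ∀ r : ℝ, 0 ≤ r → r < 1 → Summable fun n => |a n| * r ^ n

/-- derived coefficients -/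
def der (a : ℕ → ℝ) (n : ℕ) : ℝ := ((n : ℝ) + 1) * a (n + 1)

lemma succ_mul_pow_le {q : ℝ} (h0 : 0 ≤ q) (h1 : q < 1) (n : ℕ) :
    ((n : ℝ) + 1) * q ^ n ≤ (1 - q)⁻¹ := by
  have e : ∑ k ∈ Finset.range (n + 1), q ^ n ≤ ∑ k ∈ Finset.range (n + 1), q ^ k := by
    refine Finset.sum_le_sum fun k hk => ?_
    exact pow_le_pow_of_le_one h0 h1.le (Nat.lt_succ_iff.mp (Finset.mem_range.mp hk))
  rw [Finset.sum_const, Finset.card_range, nsmul_eq_mul] at e
  have h2 : ∑ k ∈ Finset.range (n + 1), q ^ k ≤ ∑' k, q ^ k :=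
    (summable_geometric_of_lt_one h0 h1).sum_le_tsum _ (fun k _ => pow_nonneg h0 k)
  rw [tsum_geometric_of_lt_one h0 h1] at h2
  push_cast at e
  linarith

lemma Good.der {a : ℕ → ℝ} (h : Good a) : Good (der a) := by
  intro r h0 h1
  obtain ⟨s, hs⟩ : ∃ s, s = (r + 1) / 2 := ⟨_, rfl⟩
  have hs0 : 0 < s := by linarith
  have hs1 : s < 1 := by linarith
  have hrs : r < s := by linarith
  have hq0 : 0 ≤ r / s := div_nonneg h0 hs0.le
  have hq1 : r / s < 1 := (div_lt_one hs0).mpr hrs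
  have hS := (summable_nat_add_iff 1).mpr (h s hs0.le hs1)
  refine Summable.of_nonneg_of_le (fun n => by positivity) (fun n => ?_)
    (hS.mul_left ((1 - r / s)⁻¹ / s))
  have h3 := succ_mul_pow_le hq0 hq1 n
  have h4 : r ^ n = (r / s) ^ n * s ^ n := by
    rw [← mul_pow, div_mul_cancel₀ _ hs0.ne']
  unfold H54.der
  rw [abs_mul, abs_of_nonneg (by positivity : (0 : ℝ) ≤ (n : ℝ) + 1), h4, pow_succ]
  calc ((n : ℝ) + 1) * |a (n + 1)| * ((r / s) ^ n * s ^ n)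
      = (((n : ℝ) + 1) * (r / s) ^ n) * (|a (n + 1)| * s ^ n) := by ring
    _ ≤ (1 - r / s)⁻¹ * (|a (n + 1)| * s ^ n) := by gcongr
    _ = _ := by field_simp

lemma Good.summable {a : ℕ → ℝ} (h : Good a) {y : ℝ} (hy : |y| < 1) :
    Summable fun n => a n * y ^ n := by
  refine Summable.of_norm ?_
  refine (h |y| (abs_nonneg y) hy).congr fun n => ?_
  rw [norm_mul, Real.norm_eq_abs, norm_pow, Real.norm_eq_abs]

lemma Good.hasDerivAt {a : ℕ → ℝ} (h : Good a) {y : ℝ} (hy : |y| < 1) :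
    HasDerivAt (fun z => ∑' n, a n * z ^ n) (∑' n, H54.der a n * y ^ n) y := by
  obtain ⟨r, hr1, hr2⟩ := exists_between hy
  have hr0 : 0 ≤ r := (abs_nonneg y).trans hr1.le
  have hS1 : Summable fun n : ℕ => |a n| * ((n : ℝ) * r ^ (n - 1)) := by
    refine (summable_nat_add_iff 1).mp ?_
    refine (h.der r hr0 hr2).congr fun n => ?_
    unfold H54.der
    rw [abs_mul, abs_of_nonneg (by positivity : (0 : ℝ) ≤ (n : ℝ) + 1)]
    push_cast
    ring
  have key := hasDerivAt_tsum_of_isPreconnected (𝕜 := ℝ)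
    (g := fun (n : ℕ) (z : ℝ) => a n * z ^ n)
    (g' := fun (n : ℕ) (z : ℝ) => a n * ((n : ℝ) * z ^ (n - 1))) (t := Ioo (-r) r) (y₀ := y) (y := y)
    hS1 isOpen_Ioo (convex_Ioo (-r) r).isPreconnected
    (fun n z _ => (hasDerivAt_pow n z).const_mul (a n))
    (fun n z hz => by
      rw [Real.norm_eq_abs, abs_mul, abs_mul, abs_pow, Nat.abs_cast]
      have : |z| ≤ r := abs_le.mpr ⟨hz.1.le, hz.2.le⟩
      gcongr)
    (abs_lt.mp hr1) (h.summable hy) (abs_lt.mp hr1)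
  have hS2 : Summable fun n : ℕ => a n * ((n : ℝ) * y ^ (n - 1)) := by
    refine Summable.of_norm_bounded hS1 (fun n => ?_)
    rw [Real.norm_eq_abs, abs_mul, abs_mul, abs_pow, Nat.abs_cast]
    gcongr
  have e : ∑' n : ℕ, a n * ((n : ℝ) * y ^ (n - 1)) = ∑' n, H54.der a n * y ^ n := by
    rw [hS2.tsum_eq_zero_add]
    simp only [Nat.cast_zero, zero_mul, mul_zero, zero_add]
    refine tsum_congr fun n => ?_
    unfold H54.der
    push_cast
    ring
  rw [← e]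
  exact key

/-! ### The coefficients -/

/-- coefficients of the hypergeometric function `F (i τ, - i τ; 1/2; y)` -/
noncomputable def cc : ℕ → ℝ → ℝ
  | 0, _ => 1
  | (m + 1), τ => cc m τ * ((τ ^ 2 + (m : ℝ) ^ 2) / (((m : ℝ) + 1) * ((m : ℝ) + 1 / 2)))

lemma cc_cont (m : ℕ) : Continuous (cc m) := by
  induction m with
  | zero => exact continuous_const
  | succ m ih =>
    have : cc (m + 1) = fun τ => cc m τ * ((τ ^ 2 + (m : ℝ) ^ 2) /
      (((m : ℝ) + 1) * ((m : ℝ) + 1 / 2))) := rfl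
    rw [this]
    fun_prop

lemma cc_nonneg (m : ℕ) (τ : ℝ) : 0 ≤ cc m τ := by
  induction m with
  | zero => exact zero_le_one
  | succ m ih =>
    have : cc (m + 1) τ = cc m τ * ((τ ^ 2 + (m : ℝ) ^ 2) /
      (((m : ℝ) + 1) * ((m : ℝ) + 1 / 2))) := rfl
    rw [this]
    positivity

lemma cc_rec (m : ℕ) (τ : ℝ) :
    ((m : ℝ) + 1) * ((m : ℝ) + 1 / 2) * cc (m + 1) τ = (τ ^ 2 + (m : ℝ) ^ 2) * cc m τ := by
  have : cc (m + 1) τ = cc m τ * ((τ ^ 2 + (m : ℝ) ^ 2) /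
      (((m : ℝ) + 1) * ((m : ℝ) + 1 / 2))) := rfl
  rw [this]
  have h1 : (m : ℝ) + 1 ≠ 0 := by positivity
  have h2 : (m : ℝ) + 1 / 2 ≠ 0 := by positivity
  field_simp

lemma cc_good (τ : ℝ) : Good fun m => cc m τ := by
  intro r h0 h1
  refine summable_of_ratio_norm_eventually_le (r := r) h1 ?_
  filter_upwards [eventually_ge_atTop ⌈τ ^ 2⌉₊] with m hm
  have hm' : τ ^ 2 ≤ (m : ℝ) := (Nat.le_ceil _).trans (by exact_mod_cast hm)
  simp only [norm_mul, norm_pow, Real.norm_eq_abs, abs_of_nonneg h0,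
    abs_of_nonneg (cc_nonneg _ _)]
  have h2 : cc (m + 1) τ ≤ cc m τ := by
    have e : cc (m + 1) τ = cc m τ * ((τ ^ 2 + (m : ℝ) ^ 2) /
      (((m : ℝ) + 1) * ((m : ℝ) + 1 / 2))) := rfl
    rw [e]
    refine mul_le_of_le_one_right (cc_nonneg _ _) ?_
    rw [div_le_one (by positivity)]
    nlinarith [Nat.cast_nonneg (α := ℝ) m]
  rw [pow_succ]
  calc cc (m + 1) τ * (r ^ m * r) ≤ cc m τ * (r ^ m * r) := by gcongr
    _ = _ := by ring

/-- the function, its first and second derivative -/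
noncomputable def F0 (τ y : ℝ) : ℝ := ∑' n, cc n τ * y ^ n
noncomputable def F1 (τ y : ℝ) : ℝ := ∑' n, der (fun m => cc m τ) n * y ^ n
noncomputable def F2 (τ y : ℝ) : ℝ := ∑' n, der (der fun m => cc m τ) n * y ^ n

lemma hasDerivAt_F0 (τ : ℝ) {y : ℝ} (hy : |y| < 1) : HasDerivAt (F0 τ) (F1 τ y) y :=
  (cc_good τ).hasDerivAt hy

lemma hasDerivAt_F1 (τ : ℝ) {y : ℝ} (hy : |y| < 1) : HasDerivAt (F1 τ) (F2 τ y) y :=
  (cc_good τ).der.hasDerivAt hy

/-- shifting a series of derived coefficients -/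
lemma hasSum_shift {a : ℕ → ℝ} (h : Good a) {y : ℝ} (hy : |y| < 1) :
    HasSum (fun n : ℕ => (n : ℝ) * a n * y ^ n) (y * ∑' n, der a n * y ^ n) := by
  have h1 := (h.der.summable hy).hasSum.mul_left y
  have h2 : HasSum (fun n : ℕ => ((n + 1 : ℕ) : ℝ) * a (n + 1) * y ^ (n + 1))
      (y * ∑' n, der a n * y ^ n) := by
    refine h1.congr_fun ?_
    intro n
    unfold H54.der
    push_cast
    ring
  have h3 := (hasSum_nat_add_iff (f := fun n : ℕ => (n : ℝ) * a n * y ^ n) 1).mp h2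
  simpa using h3

lemma ode (τ : ℝ) {y : ℝ} (hy : |y| < 1) :
    y * (1 - y) * F2 τ y + (1 / 2 - y) * F1 τ y = τ ^ 2 * F0 τ y := by
  have g0 := cc_good τ
  have g1 := g0.der
  have s0 : HasSum (fun n => cc n τ * y ^ n) (F0 τ y) := (g0.summable hy).hasSum
  have s1 : HasSum (fun n => der (fun m => cc m τ) n * y ^ n) (F1 τ y) := (g1.summable hy).hasSum
  have s2 : HasSum (fun n : ℕ => (n : ℝ) * cc n τ * y ^ n) (y * F1 τ y) := hasSum_shift g0 hy
  have s3 : HasSum (fun n : ℕ => (n : ℝ) * der (fun m => cc m τ) n * y ^ n) (y * F2 τ y) :=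
    hasSum_shift g1 hy
  have s4 : HasSum (fun n : ℕ => ((n : ℝ) * ((n : ℝ) - 1)) * cc n τ * y ^ n)
      (y * (y * F2 τ y)) := by
    have h1 := s3.mul_left y
    have h2 : HasSum (fun n : ℕ => (((n + 1 : ℕ) : ℝ) * (((n + 1 : ℕ) : ℝ) - 1)) * cc (n + 1) τ *
        y ^ (n + 1)) (y * (y * F2 τ y)) := by
      refine h1.congr_fun ?_
      intro n
      unfold H54.der
      push_cast
      ring
    have h3 := (hasSum_nat_add_iff
      (f := fun n : ℕ => ((n : ℝ) * ((n : ℝ) - 1)) * cc n τ * y ^ n) 1).mp h2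
    simpa using h3
  have s5 := (((s3.sub s4).add (s1.mul_left (1 / 2))).sub s2).sub (s0.mul_left (τ ^ 2))
  have e : (fun n : ℕ => (n : ℝ) * der (fun m => cc m τ) n * y ^ n
      - ((n : ℝ) * ((n : ℝ) - 1)) * cc n τ * y ^ n + 1 / 2 * (der (fun m => cc m τ) n * y ^ n)
      - (n : ℝ) * cc n τ * y ^ n - τ ^ 2 * (cc n τ * y ^ n)) = fun _ => 0 := by
    funext n
    have h := cc_rec n τ
    unfold H54.der
    simp only
    linear_combination y ^ n * h
  rw [e] at s5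
  have h6 := s5.unique hasSum_zero
  linear_combination h6

lemma F0_zero (τ : ℝ) : F0 τ 0 = 1 := by
  unfold F0
  rw [tsum_eq_single 0]
  · simp [cc]
  · intro n hn
    simp [hn]

/-! ### Real axis -/

lemma sin_sq_lt {φ : ℝ} (h : φ ∈ Ioo (-(π / 2)) (π / 2)) : |sin φ ^ 2| < 1 := by
  have hc := cos_pos_of_mem_Ioo h
  rw [abs_of_nonneg (sq_nonneg _)]
  nlinarith [sin_sq_add_cos_sq φ]

lemma F0_sin {τ : ℝ} (hτ : τ ≠ 0) {φ : ℝ} (h : φ ∈ Ioo (-(π / 2)) (π / 2)) :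
    F0 τ (sin φ ^ 2) = cosh (2 * τ * φ) := by
  have hp := pi_pos
  have d0 : ∀ x ∈ Ioo (-(π / 2)) (π / 2), HasDerivAt (fun x => F0 τ (sin x ^ 2))
      (F1 τ (sin x ^ 2) * (2 * sin x * cos x)) x := by
    intro x hx
    have h1 : HasDerivAt (fun x => sin x ^ 2) (2 * sin x * cos x) x := by
      simpa using (hasDerivAt_sin x).fun_pow 2
    exact (hasDerivAt_F0 τ (sin_sq_lt hx)).comp x h1
  have d1 : ∀ x ∈ Ioo (-(π / 2)) (π / 2), HasDerivAt
      (fun x => F1 τ (sin x ^ 2) * (2 * sin x * cos x)) (4 * τ ^ 2 * F0 τ (sin x ^ 2)) x := by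
    intro x hx
    have h1 : HasDerivAt (fun x => sin x ^ 2) (2 * sin x * cos x) x := by
      simpa using (hasDerivAt_sin x).fun_pow 2
    have h2 : HasDerivAt (fun x => 2 * sin x * cos x) (2 * cos x * cos x + 2 * sin x * (-sin x)) x :=
      ((hasDerivAt_sin x).const_mul 2).mul (hasDerivAt_cos x)
    have h3 := ((hasDerivAt_F1 τ (sin_sq_lt hx)).comp x h1).mul h2
    refine h3.congr_deriv ?_
    have ho := ode τ (sin_sq_lt hx)
    have hsc := sin_sq_add_cos_sq x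
    simp only [Function.comp]
    obtain ⟨s, hs⟩ : ∃ s, s = sin x := ⟨_, rfl⟩
    obtain ⟨c, hc⟩ : ∃ c, c = cos x := ⟨_, rfl⟩
    rw [← hs] at ho hsc ⊢
    rw [← hc] at hsc ⊢
    have hc2 : c ^ 2 = 1 - s ^ 2 := by linarith
    linear_combination 4 * ho + (4 * s ^ 2 * F2 τ (s ^ 2) + 2 * F1 τ (s ^ 2)) * hc2
  obtain ⟨g, hg⟩ : ∃ g : ℝ → ℝ, g = fun x => F0 τ (sin x ^ 2) := ⟨_, rfl⟩
  obtain ⟨g', hg'⟩ : ∃ g' : ℝ → ℝ, g' = fun x => F1 τ (sin x ^ 2) * (2 * sin x * cos x) := ⟨_, rfl⟩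
  have d0' : ∀ x ∈ Ioo (-(π / 2)) (π / 2), HasDerivAt g (g' x) x := by
    intro x hx; rw [hg, hg']; exact d0 x hx
  have d1' : ∀ x ∈ Ioo (-(π / 2)) (π / 2), HasDerivAt g' (4 * τ ^ 2 * g x) x := by
    intro x hx; rw [hg, hg']; exact d1 x hx
  have g0 : g 0 = 1 := by
    rw [hg]; simp [F0_zero]
  have g0' : g' 0 = 0 := by
    rw [hg']; simp
  have m0 : (0 : ℝ) ∈ Ioo (-(π / 2)) (π / 2) := ⟨by linarith, by linarith⟩
  have key : ∀ σ : ℝ, σ ^ 2 = 4 * τ ^ 2 → g' φ + σ * g φ = σ * exp (σ * φ) := by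
    intro σ hσ
    have d2 : ∀ x ∈ Ioo (-(π / 2)) (π / 2),
        HasDerivAt (fun x => (g' x + σ * g x) * exp (-(σ * x))) 0 x := by
      intro x hx
      have h1 : HasDerivAt (fun x => exp (-(σ * x))) (exp (-(σ * x)) * (-(σ * 1))) x :=
        (((hasDerivAt_id x).const_mul σ).neg).exp
      refine (((d1' x hx).add ((d0' x hx).const_mul σ)).mul h1).congr_deriv ?_
      simp only [Pi.add_apply]
      linear_combination (-(g x * exp (-(σ * x)))) * hσ
    have hc := isOpen_Ioo.is_const_of_deriv_eq_zero (convex_Ioo (-(π / 2)) (π / 2)).isPreconnected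
      (fun x hx => (d2 x hx).differentiableAt.differentiableWithinAt)
      (fun x hx => (d2 x hx).deriv) h m0
    simp only [g0, g0', mul_zero, neg_zero, Real.exp_zero, mul_one, zero_add] at hc
    have he : exp (-(σ * φ)) * exp (σ * φ) = 1 := by
      rw [← Real.exp_add, neg_add_cancel, Real.exp_zero]
    calc g' φ + σ * g φ = ((g' φ + σ * g φ) * exp (-(σ * φ))) * exp (σ * φ) := by
          rw [mul_assoc, he, mul_one]
      _ = _ := by rw [hc]
  have k1 := key (2 * τ) (by ring)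
  have k2 := key (-(2 * τ)) (by ring)
  have e : F0 τ (sin φ ^ 2) = g φ := by rw [hg]
  rw [e, Real.cosh_eq]
  have e2 : -(2 * τ) * φ = -(2 * τ * φ) := by ring
  rw [e2] at k2
  have h4 : 4 * τ * g φ = 4 * τ * ((exp (2 * τ * φ) + exp (-(2 * τ * φ))) / 2) := by
    linear_combination k1 - k2
  exact mul_left_cancel₀ (by simpa using hτ) h4

/-! ### Imaginary axis -/

lemma neg_sinh_sq_lt {u : ℝ} (h : u ∈ Ioo (-(arsinh 1)) (arsinh 1)) : |-(sinh u ^ 2)| < 1 := by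
  rw [abs_neg, abs_of_nonneg (sq_nonneg _)]
  have h1 : sinh u < 1 := by
    have := Real.sinh_lt_sinh.mpr h.2
    rwa [Real.sinh_arsinh] at this
  have h2 : -1 < sinh u := by
    have := Real.sinh_lt_sinh.mpr h.1
    rwa [Real.sinh_neg, Real.sinh_arsinh] at this
  nlinarith

lemma F0_sinh {τ : ℝ} (hτ : τ ≠ 0) {u : ℝ} (h : u ∈ Ioo (-(arsinh 1)) (arsinh 1)) :
    F0 τ (-(sinh u ^ 2)) = cos (2 * τ * u) := by
  have ha : 0 < arsinh 1 := Real.arsinh_pos_iff.mpr one_pos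
  have h1s : ∀ x : ℝ, HasDerivAt (fun x => -(sinh x ^ 2)) (-(2 * sinh x * cosh x)) x := by
    intro x
    simpa using ((Real.hasDerivAt_sinh x).fun_pow 2).fun_neg
  have d0 : ∀ x ∈ Ioo (-(arsinh 1)) (arsinh 1), HasDerivAt (fun x => F0 τ (-(sinh x ^ 2)))
      (F1 τ (-(sinh x ^ 2)) * (-(2 * sinh x * cosh x))) x := by
    intro x hx
    exact (hasDerivAt_F0 τ (neg_sinh_sq_lt hx)).comp x (h1s x)
  have d1 : ∀ x ∈ Ioo (-(arsinh 1)) (arsinh 1), HasDerivAt
      (fun x => F1 τ (-(sinh x ^ 2)) * (-(2 * sinh x * cosh x)))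
      (-(4 * τ ^ 2) * F0 τ (-(sinh x ^ 2))) x := by
    intro x hx
    have h2 : HasDerivAt (fun x => -(2 * sinh x * cosh x))
        (-(2 * cosh x * cosh x + 2 * sinh x * sinh x)) x :=
      (((Real.hasDerivAt_sinh x).const_mul 2).mul (Real.hasDerivAt_cosh x)).neg
    have h3 := ((hasDerivAt_F1 τ (neg_sinh_sq_lt hx)).comp x (h1s x)).mul h2
    refine h3.congr_deriv ?_
    have ho := ode τ (neg_sinh_sq_lt hx)
    have hsc := Real.cosh_sq x
    simp only [Function.comp]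
    obtain ⟨s, hs⟩ : ∃ s, s = sinh x := ⟨_, rfl⟩
    obtain ⟨c, hc⟩ : ∃ c, c = cosh x := ⟨_, rfl⟩
    rw [← hs] at ho hsc ⊢
    rw [← hc] at hsc ⊢
    linear_combination (-4) * ho + (4 * s ^ 2 * F2 τ (-(s ^ 2)) - 2 * F1 τ (-(s ^ 2))) * hsc
  obtain ⟨g, hg⟩ : ∃ g : ℝ → ℝ, g = fun x => F0 τ (-(sinh x ^ 2)) := ⟨_, rfl⟩
  obtain ⟨g', hg'⟩ : ∃ g' : ℝ → ℝ, g' = fun x => F1 τ (-(sinh x ^ 2)) *
    (-(2 * sinh x * cosh x)) := ⟨_, rfl⟩
  have d0' : ∀ x ∈ Ioo (-(arsinh 1)) (arsinh 1), HasDerivAt g (g' x) x := by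
    intro x hx; rw [hg, hg']; exact d0 x hx
  have d1' : ∀ x ∈ Ioo (-(arsinh 1)) (arsinh 1), HasDerivAt g' (-(4 * τ ^ 2) * g x) x := by
    intro x hx; rw [hg, hg']; exact d1 x hx
  have g0 : g 0 = 1 := by
    rw [hg]; simp [F0_zero]
  have g0' : g' 0 = 0 := by
    rw [hg']; simp
  have m0 : (0 : ℝ) ∈ Ioo (-(arsinh 1)) (arsinh 1) := ⟨by linarith, by linarith⟩
  have hC : ∀ x : ℝ, HasDerivAt (fun x => cos (2 * τ * x)) (-sin (2 * τ * x) * (2 * τ * 1)) x :=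
    fun x => ((hasDerivAt_id x).const_mul (2 * τ)).cos
  have hS : ∀ x : ℝ, HasDerivAt (fun x => sin (2 * τ * x)) (cos (2 * τ * x) * (2 * τ * 1)) x :=
    fun x => ((hasDerivAt_id x).const_mul (2 * τ)).sin
  have k1 : 2 * τ * g u * cos (2 * τ * u) - g' u * sin (2 * τ * u) = 2 * τ := by
    have d2 : ∀ x ∈ Ioo (-(arsinh 1)) (arsinh 1),
        HasDerivAt (fun x => 2 * τ * g x * cos (2 * τ * x) - g' x * sin (2 * τ * x)) 0 x := by
      intro x hx
      refine ((((d0' x hx).const_mul (2 * τ)).mul (hC x)).sub ((d1' x hx).mul (hS x))).congr_deriv ?_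
      ring
    have hc := isOpen_Ioo.is_const_of_deriv_eq_zero
      (convex_Ioo (-(arsinh 1)) (arsinh 1)).isPreconnected
      (fun x hx => (d2 x hx).differentiableAt.differentiableWithinAt)
      (fun x hx => (d2 x hx).deriv) h m0
    simpa [g0, g0'] using hc
  have k2 : 2 * τ * g u * sin (2 * τ * u) + g' u * cos (2 * τ * u) = 0 := by
    have d2 : ∀ x ∈ Ioo (-(arsinh 1)) (arsinh 1),
        HasDerivAt (fun x => 2 * τ * g x * sin (2 * τ * x) + g' x * cos (2 * τ * x)) 0 x := by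
      intro x hx
      refine ((((d0' x hx).const_mul (2 * τ)).mul (hS x)).add ((d1' x hx).mul (hC x))).congr_deriv ?_
      ring
    have hc := isOpen_Ioo.is_const_of_deriv_eq_zero
      (convex_Ioo (-(arsinh 1)) (arsinh 1)).isPreconnected
      (fun x hx => (d2 x hx).differentiableAt.differentiableWithinAt)
      (fun x hx => (d2 x hx).deriv) h m0
    simpa [g0, g0'] using hc
  have e : F0 τ (-(sinh u ^ 2)) = g u := by rw [hg]
  rw [e]
  have hsc := sin_sq_add_cos_sq (2 * τ * u)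
  have h4 : 2 * τ * g u = 2 * τ * cos (2 * τ * u) := by
    linear_combination cos (2 * τ * u) * k1 + sin (2 * τ * u) * k2 - 2 * τ * g u * hsc
  exact mul_left_cancel₀ (by simpa using hτ) h4

/-! ### The case `τ = 0` -/

lemma cc_zero (m : ℕ) : cc (m + 1) 0 = 0 := by
  induction m with
  | zero =>
    have : cc (0 + 1) 0 = cc 0 0 * (((0 : ℝ) ^ 2 + ((0 : ℕ) : ℝ) ^ 2) /
      ((((0 : ℕ) : ℝ) + 1) * (((0 : ℕ) : ℝ) + 1 / 2))) := rfl
    rw [this]; simp
  | succ m ih =>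
    have : cc (m + 1 + 1) 0 = cc (m + 1) 0 * (((0 : ℝ) ^ 2 + ((m + 1 : ℕ) : ℝ) ^ 2) /
      ((((m + 1 : ℕ) : ℝ) + 1) * (((m + 1 : ℕ) : ℝ) + 1 / 2))) := rfl
    rw [this, ih, zero_mul]

lemma F0_tau_zero (y : ℝ) : F0 0 y = 1 := by
  unfold F0
  rw [tsum_eq_single 0]
  · simp [cc]
  · intro n hn
    obtain ⟨m, rfl⟩ := Nat.exists_eq_succ_of_ne_zero hn
    rw [Nat.succ_eq_add_one, cc_zero, zero_mul]

lemma F0_sin' (τ : ℝ) {φ : ℝ} (h : φ ∈ Ioo (-(π / 2)) (π / 2)) :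
    F0 τ (sin φ ^ 2) = cosh (2 * τ * φ) := by
  by_cases hτ : τ = 0
  · rw [hτ, F0_tau_zero]; simp
  · exact F0_sin hτ h

lemma F0_sinh' (τ : ℝ) {u : ℝ} (h : u ∈ Ioo (-(arsinh 1)) (arsinh 1)) :
    F0 τ (-(sinh u ^ 2)) = cos (2 * τ * u) := by
  by_cases hτ : τ = 0
  · rw [hτ, F0_tau_zero]; simp
  · exact F0_sinh hτ h

theorem sinx : SinxStmt := by
  refine ⟨cc, cc_cont, cc_nonneg, ?_, ?_⟩
  · intro τ x h0 h1
    have hx : |x ^ 2| < 1 := by
      rw [abs_of_nonneg (sq_nonneg _)]; nlinarith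
    have hs : HasSum (fun n => cc n τ * (x ^ 2) ^ n) (F0 τ (x ^ 2)) :=
      ((cc_good τ).summable hx).hasSum
    have hm : arcsin x ∈ Ioo (-(π / 2)) (π / 2) := by
      refine ⟨?_, ?_⟩
      · have := Real.arcsin_nonneg.mpr h0
        have := pi_pos
        linarith
      · exact Real.arcsin_lt_pi_div_two.mpr h1
    have h2 := F0_sin' τ hm
    rw [Real.sin_arcsin (by linarith) h1.le] at h2
    rw [← h2]
    refine hs.congr_fun ?_
    intro n
    rw [← pow_mul]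
  · intro τ x h0 h1
    have hx : |-(x ^ 2)| < 1 := by
      rw [abs_neg, abs_of_nonneg (sq_nonneg _)]; nlinarith
    have hs : HasSum (fun n => cc n τ * (-(x ^ 2)) ^ n) (F0 τ (-(x ^ 2))) :=
      ((cc_good τ).summable hx).hasSum
    have hm : arsinh x ∈ Ioo (-(arsinh 1)) (arsinh 1) := by
      refine ⟨?_, ?_⟩
      · have := Real.arsinh_nonneg_iff.mpr h0
        have : 0 < arsinh 1 := Real.arsinh_pos_iff.mpr one_pos
        linarith
      · exact Real.arsinh_lt_arsinh.mpr h1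
    have h2 := F0_sinh' τ hm
    rw [Real.sinh_arsinh] at h2
    rw [← h2]
    refine hs.congr_fun ?_
    intro n
    rw [neg_pow (x ^ 2) n, ← pow_mul]
    ring

end Pool.Agent.XQ.U.H54
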