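import Pool.Agent.Helper36_XQ.Stmt4

/-!
Squad XQ (MP_5b0138_an), part A4: modules CVV, CVA, CEA (kernels of the corners; helper54).
-/

set_option autoImplicit false

namespace Pool.Agent.XQ.K4.H54

open MeasureTheory Complex Filter Topology Pool.Agent.H38KL Pool.Agent.H60K
open scoped ENNReal NNReal

/-! ### Elementary bounds -/

theorem ratio_le {a b τ : ℝ} (_ha : 0 ≤ a) (hab : a ≤ b) (hb : 0 < b) (hτ : 0 < τ) :
    Real.sinh (a * τ) / Real.sinh (b * τ) ≤ Real.exp (-((b - a) * τ)) := by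
  have hs : 0 < Real.sinh (b * τ) := Real.sinh_pos_iff.mpr (by positivity)
  rw [div_le_iff₀ hs]
  have e1 : Real.exp (-((b - a) * τ)) * Real.sinh (b * τ)
      = (Real.exp (a * τ) - Real.exp (-((2 * b - a) * τ))) / 2 := by
    rw [Real.sinh_eq]
    have h1 : Real.exp (-((b - a) * τ)) * Real.exp (b * τ) = Real.exp (a * τ) := by
      rw [← Real.exp_add]; congr 1; ring
    have h2 : Real.exp (-((b - a) * τ)) * Real.exp (-(b * τ)) = Real.exp (-((2 * b - a) * τ)) := by
      rw [← Real.exp_add]; congr 1; ring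
    linear_combination (1 / 2) * h1 - (1 / 2) * h2
  rw [e1, Real.sinh_eq]
  have h3 : Real.exp (-((2 * b - a) * τ)) ≤ Real.exp (-(a * τ)) := by
    apply Real.exp_le_exp.mpr
    linarith only [mul_le_mul_of_nonneg_right hab hτ.le]
  linarith

theorem ratio_nonneg {a b τ : ℝ} (ha : 0 ≤ a) (hb : 0 < b) (hτ : 0 < τ) :
    0 ≤ Real.sinh (a * τ) / Real.sinh (b * τ) := by
  have hs : 0 < Real.sinh (b * τ) := Real.sinh_pos_iff.mpr (by positivity)
  exact div_nonneg (Real.sinh_nonneg_iff.mpr (by positivity)) hs.le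

theorem sinh_le_mul_cosh {x : ℝ} (hx : 0 ≤ x) : Real.sinh x ≤ x * Real.cosh x := by
  have h : ∀ y : ℝ, 0 ≤ y → 0 ≤ y * Real.cosh y - Real.sinh y := by
    have hd : ∀ y : ℝ, HasDerivAt (fun y : ℝ => y * Real.cosh y - Real.sinh y)
        (y * Real.sinh y) y := by
      intro y
      have h1 := ((hasDerivAt_id y).mul (Real.hasDerivAt_cosh y)).sub (Real.hasDerivAt_sinh y)
      refine h1.congr_deriv ?_
      rw [id_eq]
      ring
    intro y hy
    have hm : MonotoneOn (fun y : ℝ => y * Real.cosh y - Real.sinh y) (Set.Ici 0) := by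
      apply monotoneOn_of_deriv_nonneg (convex_Ici 0)
      · exact fun z _ => (hd z).continuousAt.continuousWithinAt
      · exact fun z _ => (hd z).differentiableAt.differentiableWithinAt
      · intro z hz
        rw [interior_Ici] at hz
        rw [(hd z).deriv]
        exact mul_nonneg (le_of_lt hz) (Real.sinh_nonneg_iff.mpr (le_of_lt hz))
    have h2 := hm (Set.mem_Ici.mpr le_rfl) (Set.mem_Ici.mpr hy) hy
    simpa using h2
  linarith [h x hx]

theorem le_ratio {a b τ : ℝ} (ha : 0 ≤ a) (hb : 0 < b) (hτ : 0 < τ) (hτ1 : τ ≤ 1) :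
    a / (b * Real.cosh b) ≤ Real.sinh (a * τ) / Real.sinh (b * τ) := by
  have hs : 0 < Real.sinh (b * τ) := Real.sinh_pos_iff.mpr (by positivity)
  have hc : 0 < Real.cosh b := Real.cosh_pos b
  rw [div_le_div_iff₀ (by positivity) hs]
  have h1 : a * τ ≤ Real.sinh (a * τ) := Real.self_le_sinh_iff.mpr (by positivity)
  have h2 : Real.sinh (b * τ) ≤ b * τ * Real.cosh (b * τ) := sinh_le_mul_cosh (by positivity)
  have h3 : Real.cosh (b * τ) ≤ Real.cosh b := by
    rw [Real.cosh_le_cosh, abs_of_nonneg (by positivity), abs_of_pos hb]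
    nlinarith only [hb, hτ1]
  calc a * Real.sinh (b * τ) ≤ a * (b * τ * Real.cosh (b * τ)) := by gcongr
    _ ≤ a * (b * τ * Real.cosh b) := by gcongr
    _ = a * τ * (b * Real.cosh b) := by ring
    _ ≤ Real.sinh (a * τ) * (b * Real.cosh b) := by gcongr

theorem cosh_le_exp_abs (x : ℝ) : Real.cosh x ≤ Real.exp |x| := by
  rw [← Real.cosh_abs, Real.cosh_eq]
  have : Real.exp (-|x|) ≤ Real.exp |x| := Real.exp_le_exp.mpr (by linarith [abs_nonneg x])
  linarith

theorem sinh_le_exp (x : ℝ) : Real.sinh x ≤ Real.exp x := by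
  rw [Real.sinh_eq]
  have := Real.exp_pos x
  have := Real.exp_pos (-x)
  linarith

theorem norm_us (η1 η2 : ℝ) (s : Fin 3) : ‖us η1 η2 s‖ = 1 := by
  fin_cases s
  · simp [us]
  · have : ‖us η1 η2 1‖ = 1 := by
      simp [us, Complex.norm_exp]
    exact this
  · have : ‖us η1 η2 2‖ = 1 := by
      simp [us, Complex.norm_exp]
    exact this

/-- the transform as a real integral -/
theorem Lh_eq (hlab : LabStatement) {u : Fin 3 → ℂ} {h : Fin 3 → ℝ} (hu : ∀ s, ‖u s‖ = 1)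
    {M E : Finset (Fin 3)} (hd : Disjoint M E) {κ : ℝ} {x y : ℂ}
    (hi : IntegrableOn (fun t : ℝ => Real.exp (-(κ ^ 2 * t)) * H60K.kME u h M E t x y)
      (Set.Ioi 0)) :
    Lh (H60K.kME u h M E) κ x y
      = ENNReal.ofReal (∫ t in Set.Ioi (0 : ℝ), Real.exp (-(κ ^ 2 * t)) * H60K.kME u h M E t x y) := by
  rw [Lh, ofReal_integral_eq_lintegral_ofReal hi]
  refine (ae_restrict_iff' measurableSet_Ioi).mpr (Eventually.of_forall fun t ht => ?_)
  have h1 := (hlab u h hu).2 t x y ht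
  have h2 := h1.2.2.1 M E hd
  refine mul_nonneg (Real.exp_pos _).le ?_
  rw [h2]
  exact Finset.sum_nonneg fun A _ => h1.1 A

theorem fin_bounds {L : ℝ≥0∞} {J I A c C κ r r' s : ℝ} (hA : 0 < A) (hs : 0 < s)
    (hL : L = ENNReal.ofReal J) (hJ : J = A * (s * I))
    (h1 : c * κ⁻¹ * Real.exp (-(κ * (r + r'))) ≤ I)
    (h2 : I ≤ C * κ⁻¹ * Real.exp (-(κ * (r + r')))) :
    ENNReal.ofReal (A * c * s * κ⁻¹ * Real.exp (-(κ * (r + r')))) ≤ L ∧
      L ≤ ENNReal.ofReal (A * C * s * κ⁻¹ * Real.exp (-(κ * (r + r')))) := by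
  rw [hL, hJ]
  constructor
  · apply ENNReal.ofReal_le_ofReal
    calc A * c * s * κ⁻¹ * Real.exp (-(κ * (r + r')))
        = A * (s * (c * κ⁻¹ * Real.exp (-(κ * (r + r'))))) := by ring
      _ ≤ A * (s * I) := by gcongr
  · apply ENNReal.ofReal_le_ofReal
    calc A * (s * I) ≤ A * (s * (C * κ⁻¹ * Real.exp (-(κ * (r + r'))))) := by gcongr
      _ = A * C * s * κ⁻¹ * Real.exp (-(κ * (r + r'))) := by ring

/-! ### CVV -/

theorem cvv (hlab : LabStatement) (hkes : KesStatement) (hklb : KlbStatement) : CvvStatement := by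
  intro η1 η2 r0 r1 h1 h1' h2 h2' hα hr0 hr01
  set g1 : ℝ := Real.pi - (η1 + η2) - |η1 - η2| with hg1
  set g2 : ℝ := 2 * (η1 + η2) - Real.pi with hg2
  have hg1p : 0 < g1 := by
    rcases abs_cases (η1 - η2) with h | h <;> rw [hg1, h.1] <;> linarith
  have hg2p : 0 < g2 := by rw [hg2]; linarith
  set ψ0 : ℝ := min (min (g1 / 4) (g2 / 4)) (min (η1 / 2) (η2 / 2)) with hψ0
  have hψp : 0 < ψ0 := by rw [hψ0]; positivity
  have hψ1 : ψ0 ≤ g1 / 4 := (min_le_left _ _).trans (min_le_left _ _)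
  have hψ2 : ψ0 ≤ g2 / 4 := (min_le_left _ _).trans (min_le_right _ _)
  have hψ3 : ψ0 ≤ η1 / 2 := (min_le_right _ _).trans (min_le_left _ _)
  have hψ4 : ψ0 ≤ η2 / 2 := (min_le_right _ _).trans (min_le_right _ _)
  set α : ℝ := η1 + η2 with hαd
  have hαp : 0 < α := by rw [hαd]; linarith only [h1', h2', hψp, hψ2]
  set β : ℝ := min (g1 / 2) (g2 / 2) with hβ
  have hβp : 0 < β := by rw [hβ]; positivity
  have hβ1 : β ≤ g1 / 2 := min_le_left _ _
  have hβ2 : β ≤ g2 / 2 := min_le_right _ _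
  have hc0 : 0 < g2 / (α * Real.cosh α) := by
    have := Real.cosh_pos α
    positivity
  obtain ⟨c, C, κ0, hc, hC, hκ0, key⟩ := hklb.2.2 (g2 / (α * Real.cosh α)) 2 β r0 r1 hc0
    (by norm_num) hβp hr0 hr01
  have hpi : 0 < 1 / Real.pi ^ 2 := by positivity
  refine ⟨ψ0, 1 / Real.pi ^ 2 * c, 1 / Real.pi ^ 2 * C, κ0, hψp, by positivity, by positivity, hκ0,
    fun κ r r' ψ ψ' hκ hr hr' hs hs' hψ hψ' => ?_⟩
  rw [abs_le] at hψ hψ'
  have hk := hkes η1 η2 1 κ r r' ψ ψ' h1 h2 (by linarith only [h1', h2']) (by linarith) (by linarith only [hr0, hr]) (by linarith only [hr0, hs])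
    (by linarith only [h1', hψ2, hψ]) (by linarith) (by linarith only [h1', hψ2, hψ']) (by linarith)
  obtain ⟨hi, -, he⟩ := hk
  set m : ℝ → ℝ := fun τ => (Real.sinh ((2 * (η1 + η2) - Real.pi) * τ)
      * Real.cosh ((η1 - η2 - ψ - ψ') * τ)
      + Real.sinh ((Real.pi - (η1 + η2)) * τ) * Real.cosh ((ψ - ψ') * τ))
      / Real.sinh ((η1 + η2) * τ) with hm
  have hmm : Measurable m := by
    rw [hm]; fun_prop
  have hsplit : ∀ τ, m τ = Real.sinh (g2 * τ) / Real.sinh (α * τ)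
      * Real.cosh ((η1 - η2 - ψ - ψ') * τ)
      + Real.sinh ((Real.pi - α) * τ) / Real.sinh (α * τ) * Real.cosh ((ψ - ψ') * τ) := by
    intro τ
    rw [hm, hg2, hαd]
    ring
  have hlow : ∀ τ : ℝ, 0 < τ → τ ≤ 1 → g2 / (α * Real.cosh α) * τ ^ 2 ≤ m τ := by
    intro τ hτ hτ1
    rw [hsplit]
    have e1 := le_ratio hg2p.le hαp hτ hτ1
    have e2 := Real.one_le_cosh ((η1 - η2 - ψ - ψ') * τ)
    have e3 : 0 ≤ Real.sinh ((Real.pi - α) * τ) / Real.sinh (α * τ) * Real.cosh ((ψ - ψ') * τ) :=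
      mul_nonneg (ratio_nonneg (by rw [hαd]; linarith only [h1', h2']) hαp hτ) (Real.cosh_pos _).le
    have e4 : τ ^ 2 ≤ 1 := by nlinarith only [hτ1, hτ]
    calc g2 / (α * Real.cosh α) * τ ^ 2 ≤ g2 / (α * Real.cosh α) * 1 := by gcongr
      _ ≤ Real.sinh (g2 * τ) / Real.sinh (α * τ) * Real.cosh ((η1 - η2 - ψ - ψ') * τ) := by
        apply mul_le_mul e1 e2 (by norm_num) (ratio_nonneg hg2p.le hαp hτ)
      _ ≤ _ := by linarith only [e3]
  have hup : ∀ τ : ℝ, 0 < τ → 0 ≤ m τ ∧ m τ ≤ 2 * Real.exp (-(β * τ)) := by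
    intro τ hτ
    rw [hsplit]
    have a1 := ratio_nonneg hg2p.le hαp hτ
    have a2 : 0 ≤ Real.sinh ((Real.pi - α) * τ) / Real.sinh (α * τ) :=
      ratio_nonneg (by rw [hαd]; linarith only [h1', h2']) hαp hτ
    have b1 : Real.sinh (g2 * τ) / Real.sinh (α * τ) ≤ Real.exp (-((α - g2) * τ)) :=
      ratio_le hg2p.le (by rw [hg2]; linarith only [h1', h2']) hαp hτ
    have b2 : Real.sinh ((Real.pi - α) * τ) / Real.sinh (α * τ)
        ≤ Real.exp (-((α - (Real.pi - α)) * τ)) :=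
      ratio_le (by rw [hαd]; linarith only [h1', h2']) (by rw [hαd]; linarith only [hψp, hψ2]) hαp hτ
    have c1 : Real.cosh ((η1 - η2 - ψ - ψ') * τ) ≤ Real.exp ((|η1 - η2| + 2 * ψ0) * τ) := by
      refine (cosh_le_exp_abs _).trans (Real.exp_le_exp.mpr ?_)
      rw [abs_mul, abs_of_pos hτ]
      refine mul_le_mul_of_nonneg_right ?_ hτ.le
      rw [abs_le]
      constructor
      · linarith only [hψ, hψ', neg_abs_le (η1 - η2)]
      · linarith only [hψ, hψ', le_abs_self (η1 - η2)]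
    have c2 : Real.cosh ((ψ - ψ') * τ) ≤ Real.exp (2 * ψ0 * τ) := by
      refine (cosh_le_exp_abs _).trans (Real.exp_le_exp.mpr ?_)
      rw [abs_mul, abs_of_pos hτ]
      refine mul_le_mul_of_nonneg_right ?_ hτ.le
      rw [abs_le]
      constructor <;> linarith only [hψ, hψ']
    constructor
    · exact add_nonneg (mul_nonneg a1 (Real.cosh_pos _).le) (mul_nonneg a2 (Real.cosh_pos _).le)
    · have d1 : Real.sinh (g2 * τ) / Real.sinh (α * τ) * Real.cosh ((η1 - η2 - ψ - ψ') * τ)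
          ≤ Real.exp (-(β * τ)) := by
        calc _ ≤ Real.exp (-((α - g2) * τ)) * Real.exp ((|η1 - η2| + 2 * ψ0) * τ) :=
              mul_le_mul b1 c1 (Real.cosh_pos _).le (Real.exp_pos _).le
          _ = Real.exp (-((g1 - 2 * ψ0) * τ)) := by
              rw [← Real.exp_add]; congr 1; rw [hg1, hg2, hαd]; ring
          _ ≤ _ := by
              apply Real.exp_le_exp.mpr
              nlinarith only [hψ1, hτ, hβ1]
      have d2 : Real.sinh ((Real.pi - α) * τ) / Real.sinh (α * τ) * Real.cosh ((ψ - ψ') * τ)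
          ≤ Real.exp (-(β * τ)) := by
        calc _ ≤ Real.exp (-((α - (Real.pi - α)) * τ)) * Real.exp (2 * ψ0 * τ) :=
              mul_le_mul b2 c2 (Real.cosh_pos _).le (Real.exp_pos _).le
          _ = Real.exp (-((g2 - 2 * ψ0) * τ)) := by
              rw [← Real.exp_add]; congr 1; rw [hg2]; ring
          _ ≤ _ := by
              apply Real.exp_le_exp.mpr
              nlinarith only [hψ2, hτ, hβ2]
      linarith only [d1, d2]
  obtain ⟨-, k1, k2⟩ := key κ r r' m hκ hr hr' hs hs' hmm hlow hup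
  have hL := Lh_eq hlab (norm_us η1 η2) (h := hh 1) (M := {1, 2}) (E := ∅) (by simp) hi
  have hf := fin_bounds (s := 1) hpi one_pos hL (by rw [he, one_mul]) k1 k2
  simpa using hf

/-! ### CVA -/

theorem cva (hlab : LabStatement) (hker : KerStatement) (hklb : KlbStatement) : CvaStatement := by
  intro η1 η2 r0 r1 h1 h2 hα hr0 hr01
  have hpi0 := Real.pi_pos
  set g : ℝ := 2 * η1 - Real.pi with hg
  have hgp : 0 < g := by rw [hg]; linarith
  set ψ0 : ℝ := min (g / 4) (min (η1 / 2) (η2 / 2)) with hψ0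
  have hη1 : 0 < η1 := by linarith
  have hψp : 0 < ψ0 := by rw [hψ0]; positivity
  have hψ1 : ψ0 ≤ g / 4 := min_le_left _ _
  have hψ3 : ψ0 ≤ η1 / 2 := (min_le_right _ _).trans (min_le_left _ _)
  have hψ4 : ψ0 ≤ η2 / 2 := (min_le_right _ _).trans (min_le_right _ _)
  set α : ℝ := η1 + η2 with hαd
  have hαp : 0 < α := by rw [hαd]; linarith
  have hρ : 0 < (Real.pi - α) / (α * Real.cosh α) := by
    have := Real.cosh_pos α
    have : 0 < Real.pi - α := by linarith
    positivity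
  obtain ⟨c, C, κ0, hc, hC, hκ0, key⟩ := hklb.2.2
    (η2 / 2 * (η2 / 2) * ((Real.pi - α) / (α * Real.cosh α))) 1 (g / 2) r0 r1 (by positivity)
    (by norm_num) (by positivity) hr0 hr01
  have hpi : 0 < 2 / Real.pi ^ 2 := by positivity
  refine ⟨ψ0, 2 / Real.pi ^ 2 * c, 2 / Real.pi ^ 2 * C, κ0, hψp, by positivity, by positivity, hκ0,
    fun κ r r' ψ ψ' hκ hr hr' hs hs' hψ hψ' => ?_⟩
  rw [abs_le] at hψ hψ'
  have hk := hker η1 η2 1 κ r r' ψ ψ' hη1 h2 (by linarith) (by linarith) (by linarith)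
    (by linarith) (by linarith) (by linarith only [hψ1, hψ4, hα, hψ]) (by linarith) (by linarith)
  obtain ⟨hi, -, he⟩ := hk
  set m : ℝ → ℝ := fun τ => Real.sinh (τ * (ψ + η2)) * Real.sinh (τ * (ψ' + η2))
      * (Real.sinh ((Real.pi - α) * τ) / Real.sinh (α * τ)) with hm
  have hmm : Measurable m := by
    rw [hm]; fun_prop
  have hlow : ∀ τ : ℝ, 0 < τ → τ ≤ 1 →
      η2 / 2 * (η2 / 2) * ((Real.pi - α) / (α * Real.cosh α)) * τ ^ 2 ≤ m τ := by
    intro τ hτ hτ1
    have e1 := le_ratio (a := Real.pi - α) (by linarith only [hα]) hαp hτ hτ1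
    have e2 : τ * (η2 / 2) ≤ Real.sinh (τ * (ψ + η2)) := by
      refine le_trans ?_ (Real.self_le_sinh_iff.mpr (mul_nonneg hτ.le (by linarith only [hψ4, hψ])))
      exact mul_le_mul_of_nonneg_left (by linarith) hτ.le
    have e3 : τ * (η2 / 2) ≤ Real.sinh (τ * (ψ' + η2)) := by
      refine le_trans ?_ (Real.self_le_sinh_iff.mpr (mul_nonneg hτ.le (by linarith only [hψ4, hψ'])))
      exact mul_le_mul_of_nonneg_left (by linarith only [hψ4, hψ']) hτ.le
    calc η2 / 2 * (η2 / 2) * ((Real.pi - α) / (α * Real.cosh α)) * τ ^ 2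
        = τ * (η2 / 2) * (τ * (η2 / 2)) * ((Real.pi - α) / (α * Real.cosh α)) := by ring
      _ ≤ m τ := by
        rw [hm]
        have p1 : 0 ≤ τ * (η2 / 2) := by positivity
        exact mul_le_mul (mul_le_mul e2 e3 p1 (p1.trans e2)) e1 hρ.le
          (mul_nonneg (p1.trans e2) (p1.trans e3))
  have hup : ∀ τ : ℝ, 0 < τ → 0 ≤ m τ ∧ m τ ≤ 1 * Real.exp (-(g / 2 * τ)) := by
    intro τ hτ
    have a2 : 0 ≤ Real.sinh ((Real.pi - α) * τ) / Real.sinh (α * τ) :=
      ratio_nonneg (by linarith only [hα]) hαp hτ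
    have p1 : 0 ≤ Real.sinh (τ * (ψ + η2)) :=
      Real.sinh_nonneg_iff.mpr (mul_nonneg hτ.le (by linarith))
    have p2 : 0 ≤ Real.sinh (τ * (ψ' + η2)) :=
      Real.sinh_nonneg_iff.mpr (mul_nonneg hτ.le (by linarith))
    have b2 : Real.sinh ((Real.pi - α) * τ) / Real.sinh (α * τ)
        ≤ Real.exp (-((α - (Real.pi - α)) * τ)) :=
      ratio_le (by linarith only [hα]) (by rw [hαd]; linarith) hαp hτ
    have q1 : Real.sinh (τ * (ψ + η2)) ≤ Real.exp (τ * (ψ0 + η2)) :=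
      (sinh_le_exp _).trans (Real.exp_le_exp.mpr (mul_le_mul_of_nonneg_left (by linarith only [hψ]) hτ.le))
    have q2 : Real.sinh (τ * (ψ' + η2)) ≤ Real.exp (τ * (ψ0 + η2)) :=
      (sinh_le_exp _).trans (Real.exp_le_exp.mpr (mul_le_mul_of_nonneg_left (by linarith) hτ.le))
    refine ⟨mul_nonneg (mul_nonneg p1 p2) a2, ?_⟩
    calc m τ ≤ Real.exp (τ * (ψ0 + η2)) * Real.exp (τ * (ψ0 + η2))
          * Real.exp (-((α - (Real.pi - α)) * τ)) :=
          mul_le_mul (mul_le_mul q1 q2 p2 (Real.exp_pos _).le) b2 a2 (by positivity)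
      _ = Real.exp (-((g - 2 * ψ0) * τ)) := by
          rw [← Real.exp_add, ← Real.exp_add]; congr 1; rw [hg, hαd]; ring
      _ ≤ 1 * Real.exp (-(g / 2 * τ)) := by
          rw [one_mul]
          apply Real.exp_le_exp.mpr
          nlinarith only [hψ1, hτ]
  obtain ⟨-, k1, k2⟩ := key κ r r' m hκ hr hr' hs hs' hmm hlow hup
  have hL := Lh_eq hlab (norm_us η1 η2) (h := hh 1) (M := {1}) (E := {2}) (by decide) hi
  have hf := fin_bounds (s := 1) hpi one_pos hL
    (I := ∫ τ in Set.Ioi (0 : ℝ), Kit τ (κ * r) * Kit τ (κ * r') * m τ) (by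
      rw [he, one_mul]
      congr 1
      refine setIntegral_congr_fun measurableSet_Ioi fun τ _ => ?_
      rw [hm]
      ring) k1 k2
  simpa using hf

/-! ### CEA -/

theorem cea (hlab : LabStatement) (hker : KerStatement) (hklb : KlbStatement) : CeaStatement := by
  intro α θ r0 r1 hα1 hα2 hθ hθ2 hr0 hr01
  have hpi0 := Real.pi_pos
  set g : ℝ := 2 * α - Real.pi - θ with hg
  have hgp : 0 < g := by rw [hg]; linarith
  have hαp : 0 < α := by linarith
  have hαθ : 0 < α - θ := by linarith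
  set ψ0 : ℝ := min (g / 4) (min (θ / 2) ((α - θ) / 2)) with hψ0
  have hψp : 0 < ψ0 := by rw [hψ0]; positivity
  have hψ1 : ψ0 ≤ g / 4 := min_le_left _ _
  have hψ3 : ψ0 ≤ θ / 2 := (min_le_right _ _).trans (min_le_left _ _)
  have hψ4 : ψ0 ≤ (α - θ) / 2 := (min_le_right _ _).trans (min_le_right _ _)
  have hρ : 0 < (Real.pi - α) / (α * Real.cosh α) := by
    have := Real.cosh_pos α
    have : 0 < Real.pi - α := by linarith
    positivity
  obtain ⟨c, C, κ0, hc, hC, hκ0, key⟩ := hklb.2.2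
    (θ / 2 * ((Real.pi - α) / (α * Real.cosh α))) (4 / g) (g / 4) r0 r1 (by positivity)
    (by positivity) (by positivity) hr0 hr01
  have hpi : 0 < 2 / Real.pi ^ 2 := by positivity
  refine ⟨ψ0, 2 / Real.pi ^ 2 * c, 2 / Real.pi ^ 2 * C, κ0, hψp, by positivity, by positivity, hκ0,
    fun κ r r' s ψ' hκ hr hr' hs hs' hsp hsψ hψ' => ?_⟩
  rw [abs_le] at hψ'
  have hk := hker (α - θ) θ 1 κ r r' (s - θ) ψ' hαθ hθ (by linarith) (by linarith) (by linarith)
    (by linarith only [hr0, hs]) (by linarith only [hsp]) (by linarith) (by linarith) (by linarith)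
  obtain ⟨hi, -, he⟩ := hk
  set m : ℝ → ℝ := fun τ => Real.sinh (τ * s) / s * Real.sinh (τ * (ψ' + θ))
      * (Real.sinh ((Real.pi - α) * τ) / Real.sinh (α * τ)) with hm
  have hmm : Measurable m := by
    rw [hm]; fun_prop
  have hlow : ∀ τ : ℝ, 0 < τ → τ ≤ 1 →
      θ / 2 * ((Real.pi - α) / (α * Real.cosh α)) * τ ^ 2 ≤ m τ := by
    intro τ hτ hτ1
    have e1 := le_ratio (a := Real.pi - α) (by linarith) hαp hτ hτ1
    have e2 : τ ≤ Real.sinh (τ * s) / s := by
      rw [le_div_iff₀ hsp]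
      exact Real.self_le_sinh_iff.mpr (by positivity)
    have e3 : τ * (θ / 2) ≤ Real.sinh (τ * (ψ' + θ)) := by
      refine le_trans ?_ (Real.self_le_sinh_iff.mpr (mul_nonneg hτ.le (by linarith)))
      exact mul_le_mul_of_nonneg_left (by linarith) hτ.le
    calc θ / 2 * ((Real.pi - α) / (α * Real.cosh α)) * τ ^ 2
        = τ * (τ * (θ / 2)) * ((Real.pi - α) / (α * Real.cosh α)) := by ring
      _ ≤ m τ := by
        rw [hm]
        have p1 : 0 ≤ τ * (θ / 2) := by positivity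
        exact mul_le_mul (mul_le_mul e2 e3 p1 (hτ.le.trans e2)) e1 hρ.le
          (mul_nonneg (hτ.le.trans e2) (p1.trans e3))
  have hup : ∀ τ : ℝ, 0 < τ → 0 ≤ m τ ∧ m τ ≤ 4 / g * Real.exp (-(g / 4 * τ)) := by
    intro τ hτ
    have a2 : 0 ≤ Real.sinh ((Real.pi - α) * τ) / Real.sinh (α * τ) :=
      ratio_nonneg (by linarith only [hα2]) hαp hτ
    have p1 : 0 ≤ Real.sinh (τ * s) / s :=
      div_nonneg (Real.sinh_nonneg_iff.mpr (mul_nonneg hτ.le hsp.le)) hsp.le
    have p2 : 0 ≤ Real.sinh (τ * (ψ' + θ)) :=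
      Real.sinh_nonneg_iff.mpr (mul_nonneg hτ.le (by linarith only [hψ3, hψ']))
    have b2 : Real.sinh ((Real.pi - α) * τ) / Real.sinh (α * τ)
        ≤ Real.exp (-((α - (Real.pi - α)) * τ)) :=
      ratio_le (by linarith only [hα2]) (by linarith only [hψp, hψ1, hψ3]) hαp hτ
    have q1 : Real.sinh (τ * s) / s ≤ τ * Real.exp (τ * ψ0) := by
      rw [div_le_iff₀ hsp]
      have z1 := sinh_le_mul_cosh (x := τ * s) (by positivity)
      have z2 : Real.cosh (τ * s) ≤ Real.exp (τ * ψ0) := by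
        refine (cosh_le_exp_abs _).trans (Real.exp_le_exp.mpr ?_)
        rw [abs_of_pos (by positivity)]
        exact mul_le_mul_of_nonneg_left hsψ hτ.le
      calc Real.sinh (τ * s) ≤ τ * s * Real.cosh (τ * s) := z1
        _ ≤ τ * s * Real.exp (τ * ψ0) := by gcongr
        _ = τ * Real.exp (τ * ψ0) * s := by ring
    have q2 : Real.sinh (τ * (ψ' + θ)) ≤ Real.exp (τ * (ψ0 + θ)) :=
      (sinh_le_exp _).trans (Real.exp_le_exp.mpr (mul_le_mul_of_nonneg_left (by linarith only [hψ']) hτ.le))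
    refine ⟨mul_nonneg (mul_nonneg p1 p2) a2, ?_⟩
    have hτe : τ ≤ 4 / g * Real.exp (g / 4 * τ) := by
      have := Real.add_one_le_exp (g / 4 * τ)
      have h5 : g / 4 * τ ≤ Real.exp (g / 4 * τ) := by linarith only [this]
      calc τ = 4 / g * (g / 4 * τ) := by field_simp
        _ ≤ _ := by gcongr
    calc m τ ≤ τ * Real.exp (τ * ψ0) * Real.exp (τ * (ψ0 + θ))
          * Real.exp (-((α - (Real.pi - α)) * τ)) :=
          mul_le_mul (mul_le_mul q1 q2 p2 (by positivity)) b2 a2 (by positivity)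
      _ = τ * Real.exp (-((g - 2 * ψ0) * τ)) := by
          rw [mul_assoc, mul_assoc, ← Real.exp_add, ← Real.exp_add]; congr 2; rw [hg]; ring
      _ ≤ τ * Real.exp (-(g / 2 * τ)) := by
          apply mul_le_mul_of_nonneg_left _ hτ.le
          apply Real.exp_le_exp.mpr
          nlinarith only [hψ1, hτ]
      _ ≤ 4 / g * Real.exp (g / 4 * τ) * Real.exp (-(g / 2 * τ)) := by gcongr
      _ = 4 / g * Real.exp (-(g / 4 * τ)) := by
          rw [mul_assoc, ← Real.exp_add]; congr 2; ring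
  obtain ⟨-, k1, k2⟩ := key κ r r' m hκ hr hr' hs hs' hmm hlow hup
  have hL := Lh_eq hlab (norm_us (α - θ) θ) (h := hh 1) (M := {1}) (E := {2}) (by decide) hi
  have hf := fin_bounds (s := s) hpi hsp hL
    (I := ∫ τ in Set.Ioi (0 : ℝ), Kit τ (κ * r) * Kit τ (κ * r') * m τ) (by
      rw [he]
      congr 1
      rw [← integral_const_mul]
      refine setIntegral_congr_fun measurableSet_Ioi fun τ _ => ?_
      have e1 : s - θ + θ = s := by ring
      have e2 : α - θ + θ = α := by ring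
      simp only [e1, e2, hm]
      field_simp) k1 k2
  exact hf

end Pool.Agent.XQ.K4.H54
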